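import Pool.Agent.R282.KE.Sys

set_option autoImplicit false
set_option linter.unusedSectionVars false
set_option linter.deprecated false

open MeasureTheory Set Filter Topology Real
open scoped RealInnerProductSpace ENNReal

namespace Pool.Agent.R282.KE

open Pool.Helper490.Calib

variable {E : Type*} [NormedAddCommGroup E] [InnerProductSpace ℝ E] [FiniteDimensional ℝ E]

/-- The correction vector of a polynomial kernel. -/
noncomputable def etaV {ι : Type} (S : Finset ι) (w : ι → ℝ) (α β : ι → ℕ) (κ : ℝ) (u : ℝ → E)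
    (x : ℝ) : E := ∑ q ∈ S, (2 * κ * (w q * mo u (β q) x)) • (Bop u x ^ α q) (u x)

/-- The variance of the position of `u` in the spectrum of the partial Gram operator. -/
noncomputable def varT (u : ℝ → E) (x : ℝ) : ℝ := ‖u x‖ ^ 2 * mo u 2 x - mo u 1 x ^ 2

namespace SysW

variable {u u' : ℝ → E} (h : SysW u u')
include h

lemma varT_cont : Continuous (varT u) :=
  ((h.uc.norm.pow 2).mul (h.mo_cont 2)).sub ((h.mo_cont 1).pow 2)

lemma varT_nonneg (x : ℝ) : 0 ≤ varT u x := by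
  obtain ⟨n, e, c, d, he, hmo, hmu, hd, hc, -⟩ := h.coords x
  rw [varT, hmo, hmo, ← hc]
  have := Finset.sum_mul_sq_le_sq_mul_sq Finset.univ (fun i => c i) (fun i => e i * c i)
  have e1 : ∑ i, c i * (e i * c i) = ∑ i, e i ^ 1 * c i ^ 2 :=
    Finset.sum_congr rfl fun i _ => by ring
  have e2 : ∑ i, (e i * c i) ^ 2 = ∑ i, e i ^ 2 * c i ^ 2 :=
    Finset.sum_congr rfl fun i _ => by ring
  rw [e1, e2] at this
  linarith

lemma etaV_cont {ι : Type} (S : Finset ι) (w : ι → ℝ) (α β : ι → ℕ) (κ : ℝ) :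
    Continuous (etaV S w α β κ u) := by
  refine continuous_finset_sum _ fun q _ => ?_
  refine Continuous.smul ?_ ((h.Bop_cont.pow _).clm_apply h.uc)
  exact continuous_const.mul (continuous_const.mul (h.mo_cont _))

section kernel

variable {ι : Type} (S : Finset ι) (w : ι → ℝ) (α β : ι → ℕ) (κ : ℝ)

/-- The calibration argument for a polynomial kernel, with remainders. -/
theorem calibrated'' (c0 c1 : ℝ) (hc1 : 0 ≤ c1)
    (hsym : ∀ s t, P S w α β s t = P S w α β t s)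
    (hK : ∀ s ∈ Icc (-(1 / 2) : ℝ) (1 / 2), ∀ r ∈ Icc (-(1 / 2) : ℝ) (1 / 2),
        ∀ t ∈ Icc (-(1 / 2) : ℝ) (1 / 2),
      4 * κ ^ 2 * (P S w α β t s * P S w α β t r) + κ * D S w α β s r t + c0 +
        c1 * (s - r) ^ 2 ≤ 0) :
    0 ≤ (∫ x, ‖u' x‖ ^ 2) - c0 * ∫ x, (‖u x‖ ^ 2) ^ 3 ∧
    ∫⁻ x, ENNReal.ofReal (‖u' x - etaV S w α β κ u x‖ ^ 2 + c1 * (2 * ‖u x‖ ^ 2 * varT u x)) ≤
      ENNReal.ofReal ((∫ x, ‖u' x‖ ^ 2) - c0 * ∫ x, (‖u x‖ ^ 2) ^ 3) := by
  obtain ⟨M, hM0, hM⟩ := h.rho_bdd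
  set Dm : ℕ → ℝ → ℝ := fun a x =>
    2 * mu u u' a x + ∑ l ∈ Finset.range a, mo u l x * mo u (a - 1 - l) x with hDm
  set Φ : ℝ → ℝ := fun x => κ * ∑ q ∈ S, w q * (mo u (α q) x * mo u (β q) x) with hΦ
  set Φ' : ℝ → ℝ := fun x => κ * ∑ q ∈ S, w q *
    (Dm (α q) x * mo u (β q) x + mo u (α q) x * Dm (β q) x) with hΦ'
  have hΦd : ∀ᵐ x, HasDerivAt Φ (Φ' x) x := by
    filter_upwards [h.hder] with x hx
    refine HasDerivAt.const_mul κ ?_
    refine HasDerivAt.fun_sum fun q _ => ?_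
    exact ((h.mo_deriv hx (α q)).mul (h.mo_deriv hx (β q))).const_mul (w q)
  have hΦac : ∀ a b, AbsolutelyContinuousOnInterval Φ a b := by
    intro a b
    refine AbsolutelyContinuousOnInterval.const_mul κ ?_
    refine ac_sum S fun q _ => ?_
    exact AbsolutelyContinuousOnInterval.const_mul (w q)
      ((h.mo_ac (α q) a b).fun_mul (h.mo_ac (β q) a b))
  have hftc : ∀ a b, ∫ x in a..b, Φ' x = Φ b - Φ a := by
    intro a b
    rw [← (hΦac a b).integral_deriv_eq_sub]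
    refine intervalIntegral.integral_congr_ae ?_
    filter_upwards [hΦd] with x hx _
    exact hx.deriv.symm
  have hDmc : ∀ a, AEStronglyMeasurable (Dm a) volume := fun a =>
    ((h.mu_meas a).const_mul 2).add
      (continuous_finset_sum _ fun l _ => (h.mo_cont l).mul (h.mo_cont _)).aestronglyMeasurable
  have hΦ'c : AEStronglyMeasurable Φ' volume := by
    refine AEStronglyMeasurable.const_mul ?_ κ
    refine Finset.aestronglyMeasurable_fun_sum _ fun q _ => ?_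
    refine AEStronglyMeasurable.const_mul ?_ _
    exact ((hDmc _).mul (h.mo_cont _).aestronglyMeasurable).add
      ((h.mo_cont _).aestronglyMeasurable.mul (hDmc _))
  -- bounds
  have hDmb : ∀ a x, |Dm a x| ≤ (‖u x‖ ^ 2 + ‖u' x‖ ^ 2) + a * (M * ‖u x‖ ^ 2) := by
    intro a x
    refine (abs_add_le _ _).trans (add_le_add (h.mu_bound x a) ?_)
    refine (Finset.abs_sum_le_sum_abs _ _).trans ?_
    have : ∀ l ∈ Finset.range a, |mo u l x * mo u (a - 1 - l) x| ≤ M * ‖u x‖ ^ 2 := by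
      intro l _
      rw [abs_mul]
      exact mul_le_mul ((h.mo_bound x l).trans (hM x)) (h.mo_bound x _) (abs_nonneg _) hM0
    refine (Finset.sum_le_sum this).trans ?_
    rw [Finset.sum_const, Finset.card_range, nsmul_eq_mul]
  have hterm : ∀ q x, |Dm (α q) x * mo u (β q) x + mo u (α q) x * Dm (β q) x| ≤
      ((‖u x‖ ^ 2 + ‖u' x‖ ^ 2) + α q * (M * ‖u x‖ ^ 2)) * M +
      M * ((‖u x‖ ^ 2 + ‖u' x‖ ^ 2) + β q * (M * ‖u x‖ ^ 2)) := by
    intro q x
    refine (abs_add_le _ _).trans (add_le_add ?_ ?_)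
    · rw [abs_mul]
      exact mul_le_mul (hDmb _ x) ((h.mo_bound x _).trans (hM x)) (abs_nonneg _) (by positivity)
    · rw [abs_mul]
      exact mul_le_mul ((h.mo_bound x _).trans (hM x)) (hDmb _ x) (abs_nonneg _) hM0
  have hΦ'i : Integrable Φ' := by
    have hdom : Integrable (fun x => |κ| * ∑ q ∈ S, |w q| *
        (((‖u x‖ ^ 2 + ‖u' x‖ ^ 2) + α q * (M * ‖u x‖ ^ 2)) * M +
      M * ((‖u x‖ ^ 2 + ‖u' x‖ ^ 2) + β q * (M * ‖u x‖ ^ 2)))) := by
      refine Integrable.const_mul (integrable_finset_sum _ fun q _ => Integrable.const_mul ?_ _) _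
      refine Integrable.add (Integrable.mul_const ?_ _) (Integrable.const_mul ?_ _)
      · exact (h.hui.add h.hu'i).add ((h.hui.const_mul _).const_mul _)
      · exact (h.hui.add h.hu'i).add ((h.hui.const_mul _).const_mul _)
    refine hdom.mono' hΦ'c (Eventually.of_forall fun x => ?_)
    rw [Real.norm_eq_abs]
    simp only [hΦ']
    rw [abs_mul]
    refine mul_le_mul_of_nonneg_left ?_ (abs_nonneg _)
    refine (Finset.abs_sum_le_sum_abs _ _).trans (Finset.sum_le_sum fun q _ => ?_)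
    rw [abs_mul]
    exact mul_le_mul_of_nonneg_left (hterm q x) (abs_nonneg _)
  have hΦb : ∀ x, |Φ x| ≤ |κ| * (∑ q ∈ S, |w q|) * (‖u x‖ ^ 2) ^ 2 := by
    intro x
    simp only [hΦ]
    rw [abs_mul, mul_assoc]
    refine mul_le_mul_of_nonneg_left ?_ (abs_nonneg _)
    rw [Finset.sum_mul]
    refine (Finset.abs_sum_le_sum_abs _ _).trans (Finset.sum_le_sum fun q _ => ?_)
    rw [abs_mul, abs_mul, pow_two]
    refine mul_le_mul_of_nonneg_left ?_ (abs_nonneg _)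
    exact mul_le_mul (h.mo_bound x _) (h.mo_bound x _) (abs_nonneg _) (sq_nonneg _)
  have hΦT : Tendsto Φ atTop (𝓝 0) := by
    refine squeeze_zero_norm hΦb ?_
    have := (h.rho_lim_top.pow 2).const_mul (|κ| * (∑ q ∈ S, |w q|))
    simpa using this
  have hΦB : Tendsto Φ atBot (𝓝 0) := by
    refine squeeze_zero_norm hΦb ?_
    have := (h.rho_lim_bot.pow 2).const_mul (|κ| * (∑ q ∈ S, |w q|))
    simpa using this
  have hzero : ∫ x, Φ' x = 0 := by
    have h1 : Tendsto (fun x : ℝ => ∫ t in (-x)..x, Φ' t) atTop (𝓝 (∫ x, Φ' x)) :=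
      intervalIntegral_tendsto_integral hΦ'i tendsto_neg_atTop_atBot tendsto_id
    have h2 : Tendsto (fun x : ℝ => ∫ t in (-x)..x, Φ' t) atTop (𝓝 (0 - 0)) := by
      simp only [hftc]
      exact hΦT.sub (hΦB.comp tendsto_neg_atTop_atBot)
    rw [sub_zero] at h2
    exact tendsto_nhds_unique h1 h2
  -- pointwise inequality
  have hpt : ∀ x, Φ' x + c0 * (‖u x‖ ^ 2) ^ 3 + (‖u' x - etaV S w α β κ u x‖ ^ 2 +
      c1 * (2 * ‖u x‖ ^ 2 * varT u x)) ≤ ‖u' x‖ ^ 2 := by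
    intro x
    obtain ⟨n, e, c, d, he, hmo, hmu, hd, hc, heta⟩ := h.coords x
    have := pointwise' S w α β κ c0 c1 e c d hsym
      (fun i k j => hK (e i) (he i) (e k) (he k) (e j) (he j))
    rw [etaV, heta, varT, ← hd, ← hc]
    simp only [hΦ', hDm, hmo, hmu]
    have e1 : ∀ i, ∑ q ∈ S, 2 * κ * (w q * ∑ j, e j ^ β q * c j ^ 2) * e i ^ α q =
        2 * κ * ∑ j, P S w α β (e i) (e j) * c j ^ 2 := by
      intro i
      simp only [P, Finset.sum_mul, Finset.mul_sum]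
      rw [Finset.sum_comm]
      refine Finset.sum_congr rfl fun j _ => Finset.sum_congr rfl fun q _ => ?_
      ring
    simp only [e1]
    exact this
  set T : ℝ → ℝ := fun x => ‖u' x‖ ^ 2 - Φ' x - c0 * (‖u x‖ ^ 2) ^ 3 with hT
  have hTi : Integrable T := (h.hu'i.sub hΦ'i).sub (h.rho3_int.const_mul c0)
  have hTint : ∫ x, T x = (∫ x, ‖u' x‖ ^ 2) - c0 * ∫ x, (‖u x‖ ^ 2) ^ 3 := by
    have e1 : ∫ x, T x = (∫ x, (‖u' x‖ ^ 2 - Φ' x)) - ∫ x, c0 * (‖u x‖ ^ 2) ^ 3 :=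
      integral_sub (h.hu'i.sub hΦ'i) (h.rho3_int.const_mul c0)
    have e2 : ∫ x, (‖u' x‖ ^ 2 - Φ' x) = (∫ x, ‖u' x‖ ^ 2) - ∫ x, Φ' x :=
      integral_sub h.hu'i hΦ'i
    rw [e1, e2, hzero, integral_const_mul, sub_zero]
  have hRT : ∀ x, ‖u' x - etaV S w α β κ u x‖ ^ 2 + c1 * (2 * ‖u x‖ ^ 2 * varT u x) ≤ T x := by
    intro x
    have := hpt x
    simp only [hT]
    linarith
  have hR0 : ∀ x, 0 ≤ ‖u' x - etaV S w α β κ u x‖ ^ 2 + c1 * (2 * ‖u x‖ ^ 2 * varT u x) := by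
    intro x
    have := h.varT_nonneg x
    positivity
  rw [← hTint]
  refine ⟨integral_nonneg fun x => (hR0 x).trans (hRT x), ?_⟩
  rw [ofReal_integral_eq_lintegral_ofReal hTi
    (Eventually.of_forall fun x => (hR0 x).trans (hRT x))]
  exact lintegral_mono fun x => ENNReal.ofReal_le_ofReal (hRT x)

/-- The calibration argument for a polynomial kernel, with remainders. -/
theorem calibrated' (c0 c1 : ℝ) (hc1 : 0 ≤ c1)
    (hsym : ∀ s t, P S w α β s t = P S w α β t s)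
    (hK : ∀ s ∈ Icc (-(1 / 2) : ℝ) (1 / 2), ∀ r ∈ Icc (-(1 / 2) : ℝ) (1 / 2),
        ∀ t ∈ Icc (-(1 / 2) : ℝ) (1 / 2),
      4 * κ ^ 2 * (P S w α β t s * P S w α β t r) + κ * D S w α β s r t + c0 +
        c1 * (s - r) ^ 2 ≤ 0) :
    ∫⁻ x, ENNReal.ofReal (‖u' x - etaV S w α β κ u x‖ ^ 2 + c1 * (2 * ‖u x‖ ^ 2 * varT u x)) ≤
      ENNReal.ofReal ((∫ x, ‖u' x‖ ^ 2) - c0 * ∫ x, (‖u x‖ ^ 2) ^ 3) :=
  (h.calibrated'' S w α β κ c0 c1 hc1 hsym hK).2

end kernel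

/-- The inequality for an angle `θ < π`. -/
theorem nonneg_theta {θ : ℝ} (hθ0 : 0 < θ) (hθ : θ < π) {δ : ℝ} (hδ : 0 < δ) :
    0 ≤ (∫ x, ‖u' x‖ ^ 2) - (θ ^ 2 / 4 - δ) * ∫ x, (‖u x‖ ^ 2) ^ 3 := by
  obtain ⟨K, a, hsym, hK, hP⟩ := exists_kernel' hθ0 hθ hδ
  exact (h.calibrated'' (SS K) (ww a) (fun q => q.2.1) (fun q => q.2.2) (θ / 4) _ _
      (by positivity) hsym hK).1

/-- The sharp inequality with a remainder, for an angle `θ < π`. -/
theorem sharp_theta {θ : ℝ} (hθ0 : 0 < θ) (hθ : θ < π) {δ : ℝ} (hδ : 0 < δ) :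
    ∃ (P' : ℝ → ℝ → ℝ) (η : ℝ → E),
      (∀ s ∈ Icc (-(1 / 2) : ℝ) (1 / 2), ∀ t ∈ Icc (-(1 / 2) : ℝ) (1 / 2),
        |P' s t + tan (θ / 2 * (s + t))| ≤ δ) ∧
      Continuous η ∧
      (∀ x e, Bop u x (u x) = e • u x → η x = (θ / 2 * P' e e * ‖u x‖ ^ 2) • u x) ∧
      ∫⁻ x, ENNReal.ofReal (‖u' x - η x‖ ^ 2 +
        θ ^ 4 / (16 * π ^ 2) * (2 * ‖u x‖ ^ 2 * varT u x)) ≤
      ENNReal.ofReal ((∫ x, ‖u' x‖ ^ 2) - (θ ^ 2 / 4 - δ) * ∫ x, (‖u x‖ ^ 2) ^ 3) := by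
  obtain ⟨K, a, hsym, hK, hP⟩ := exists_kernel' hθ0 hθ hδ
  refine ⟨P (SS K) (ww a) (fun q => q.2.1) (fun q => q.2.2),
    etaV (SS K) (ww a) (fun q => q.2.1) (fun q => q.2.2) (θ / 4) u, hP,
    h.etaV_cont _ _ _ _ _, ?_, ?_⟩
  · intro x e hx
    have hpow : ∀ a : ℕ, (Bop u x ^ a) (u x) = e ^ a • u x := by
      intro a
      induction a with
      | zero => simp
      | succ a ih =>
        rw [pow_succ, ContinuousLinearMap.mul_apply, hx, map_smul, ih, smul_smul, pow_succ,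
          mul_comm]
    have hmo : ∀ a, mo u a x = e ^ a * ‖u x‖ ^ 2 := by
      intro a
      rw [mo, hpow, real_inner_smul_right, real_inner_self_eq_norm_sq]
    rw [etaV]
    simp only [hpow, hmo, smul_smul]
    rw [← Finset.sum_smul]
    congr 1
    simp only [P, Finset.mul_sum, Finset.sum_mul]
    refine Finset.sum_congr rfl fun q _ => ?_
    ring
  · refine h.calibrated' (SS K) (ww a) (fun q => q.2.1) (fun q => q.2.2) (θ / 4) _ _
      (by positivity) hsym hK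

end SysW

end Pool.Agent.R282.KE
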