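import Pool.Agent.R282.KE.Glob
import Pool.Agent.Helper490.LTH1C

set_option autoImplicit false
set_option linter.unusedSectionVars false
set_option linter.deprecated false

open MeasureTheory Set Filter Topology Real
open scoped RealInnerProductSpace ENNReal

namespace Pool.Agent.R282.KE

open Pool.Helper490.Calib

/-- The real coordinates of a complex system. -/
lemma sysW_of_complex {N : ℕ} (u g : Fin N → ℝ → ℂ) (hu2 : ∀ n, MemLp (u n) 2)
    (hg2 : ∀ n, MemLp (g n) 2) (hug : ∀ n a b, u n b - u n a = ∫ x in a..b, g n x)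
    (hb : ∀ v : EuclideanSpace ℝ (Fin N ⊕ Fin N),
      ∫ x, ⟪realify (fun n => u n x), v⟫ ^ 2 ≤ ‖v‖ ^ 2) :
    SysW (fun x => realify fun n => u n x) (fun x => realify fun n => g n x) := by
  have hmem : ∀ f : Fin N → ℝ → ℂ, (∀ n, MemLp (f n) 2) →
      MemLp (fun x => realify fun n => f n x) 2 := by
    intro f hf
    have hfm : AEStronglyMeasurable (fun x => fun n => f n x) volume :=
      (aemeasurable_pi_lambda _ fun n => (hf n).1.aemeasurable).aestronglyMeasurable
    have hm : AEStronglyMeasurable (fun x => realify fun n => f n x) volume :=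
      (realifyL N).continuous.comp_aestronglyMeasurable hfm
    rw [memLp_two_iff_integrable_sq_norm hm]
    simp only [realify_norm]
    exact integrable_finsetSum _ fun n _ => (hf n).integrable_norm_pow (by norm_num)
  have hII : ∀ n a b, IntervalIntegrable (g n) volume a b := by
    intro n a b
    have h1 : LocallyIntegrable (g n) volume := (hg2 n).locallyIntegrable (by norm_num)
    exact intervalIntegrable_iff.2 ((h1.integrableOn_isCompact isCompact_uIcc).mono_set
      uIoc_subset_uIcc)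
  have hftc : ∀ a b, realify (fun n => u n b) - realify (fun n => u n a) =
      ∫ x in a..b, realify fun n => g n x := by
    intro a b
    have hpi : IntervalIntegrable (fun x => fun n => g n x) volume a b := by
      rw [intervalIntegrable_iff]
      exact Integrable.of_eval fun n => intervalIntegrable_iff.1 (hII n a b)
    have h1 := (realifyL N).intervalIntegral_comp_comm hpi
    simp only [realifyL_apply] at h1
    rw [h1, ← realifyL_apply, ← realifyL_apply, ← realifyL_apply, ← map_sub]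
    congr 1
    funext n
    rw [Pi.sub_apply, hug n a b]
    have h2 := (ContinuousLinearMap.proj (R := ℝ) (φ := fun _ : Fin N => ℂ) n).intervalIntegral_comp_comm hpi
    simpa using h2
  exact ⟨hftc, hmem u hu2, hmem g hg2, hb⟩

/-- Bessel's inequality for a weighted orthonormal family. -/
lemma bessel_weighted {N : ℕ} (u : Fin N → ℝ → ℂ) (ν : Fin N → ℝ) (hν : ∀ n, 0 ≤ ν n ∧ ν n ≤ 1)
    (hm : ∀ n, AEStronglyMeasurable (u n) volume) (h2 : ∀ n, Integrable (fun x => ‖u n x‖ ^ 2))
    (ho : ∀ n m, ∫ x, star (u n x) * u m x = if n = m then 1 else 0)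
    (v : EuclideanSpace ℝ (Fin N ⊕ Fin N)) :
    ∫ x, ⟪realify (fun n => (√(ν n) : ℂ) * u n x), v⟫ ^ 2 ≤ ‖v‖ ^ 2 := by
  set D : EuclideanSpace ℝ (Fin N ⊕ Fin N) :=
    WithLp.toLp 2 (Sum.elim (fun n => √(ν n) * v (Sum.inl n)) (fun n => √(ν n) * v (Sum.inr n)))
    with hD
  have h1 := bessel_of_orthonormal u hm h2 ho D
  have e : ∀ x, ⟪realify (fun n => (√(ν n) : ℂ) * u n x), v⟫ =
      ⟪realify (fun n => u n x), D⟫ := by
    intro x
    rw [realify_inner, realify_inner]
    congr 1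
    refine Finset.sum_congr rfl fun n _ => ?_
    have e1 : (⟨D (Sum.inl n), D (Sum.inr n)⟩ : ℂ) =
        (√(ν n) : ℂ) * ⟨v (Sum.inl n), v (Sum.inr n)⟩ := by
      apply Complex.ext <;> simp [hD]
    rw [e1, star_mul']
    simp only [Complex.star_def, Complex.conj_ofReal]
    ring
  simp only [e]
  refine h1.trans ?_
  rw [EuclideanSpace.norm_sq_eq, EuclideanSpace.norm_sq_eq]
  refine Finset.sum_le_sum fun i _ => ?_
  rcases i with n | n
  · simp only [hD, Sum.elim_inl, norm_mul, Real.norm_eq_abs, mul_pow, sq_abs,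
      Real.sq_sqrt (hν n).1]
    nlinarith [sq_nonneg (v (Sum.inl n)), (hν n).2]
  · simp only [hD, Sum.elim_inr, norm_mul, Real.norm_eq_abs, mul_pow, sq_abs,
      Real.sq_sqrt (hν n).1]
    nlinarith [sq_nonneg (v (Sum.inr n)), (hν n).2]

lemma integral_scale (f : ℝ → ℝ) {c : ℝ} (hc : 0 < c) (x₀ : ℝ) :
    ∫ x, f (c * (x - x₀)) = c⁻¹ * ∫ x, f x := by
  have h1 : ∫ x, f (c * (x - x₀)) = ∫ x, f (c * x) :=
    integral_sub_right_eq_self (fun x => f (c * x)) x₀
  rw [h1, Measure.integral_comp_mul_left, abs_of_pos (inv_pos.2 hc), smul_eq_mul]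

lemma integral_prof {b : ℝ} (hb : 0 < b) (x₀ : ℝ) : ∫ x, b / cosh (π * b * (x - x₀)) = 1 := by
  have h1 : ∫ x, b * (cosh (π * b * (x - x₀)))⁻¹ = (π * b)⁻¹ * ∫ x, b * (cosh x)⁻¹ :=
    integral_scale (fun x => b * (cosh x)⁻¹) (c := π * b) (by positivity) x₀
  have h2 : ∫ x, b * (cosh x)⁻¹ = b * π := by
    rw [integral_const_mul, Pool.Helper490.Sech.integral_sech]
  simp only [div_eq_mul_inv]
  rw [h1, h2]
  have := pi_pos
  field_simp

/-- The profile function. -/
noncomputable def pf (b x₀ x : ℝ) : ℝ := √(b / cosh (π * b * (x - x₀)))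

lemma pf_sq {b : ℝ} (hb : 0 < b) (x₀ x : ℝ) : pf b x₀ x ^ 2 = b / cosh (π * b * (x - x₀)) :=
  Real.sq_sqrt (div_nonneg hb.le (cosh_pos _).le)

lemma pf_pos {b : ℝ} (hb : 0 < b) (x₀ x : ℝ) : 0 < pf b x₀ x :=
  Real.sqrt_pos.2 (div_pos hb (cosh_pos _))

lemma pf_eq {b : ℝ} (hb : 0 < b) (x₀ x : ℝ) :
    pf b x₀ x = √b * Pool.Helper490.Sech.w (π * b * (x - x₀)) := by
  rw [pf, Real.sqrt_div hb.le, Pool.Helper490.Sech.w, div_eq_mul_inv]

lemma pf_deriv {b : ℝ} (hb : 0 < b) (x₀ x : ℝ) :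
    HasDerivAt (pf b x₀) (√b * (Pool.Helper490.Sech.w' (π * b * (x - x₀)) * (π * b))) x := by
  have h1 : HasDerivAt (fun x : ℝ => π * b * (x - x₀)) (π * b) x := by
    simpa using ((hasDerivAt_id x).sub_const x₀).const_mul (π * b)
  have h2 := ((Pool.Helper490.Sech.w_deriv (π * b * (x - x₀))).comp x h1).const_mul √b
  have e : pf b x₀ = fun x => √b * (Pool.Helper490.Sech.w ∘ fun x => π * b * (x - x₀)) x :=
    funext fun x => pf_eq hb x₀ x
  rw [e]
  exact h2

/-- Equality in the sharp inequality, for weighted orthonormal families. -/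
theorem equality_iff (N : ℕ) (hN : 1 ≤ N) (u g : Fin N → ℝ → ℂ) (ν : Fin N → ℝ)
    (hν : ∀ n, 0 < ν n ∧ ν n ≤ 1) (hu2 : ∀ n, MemLp (u n) 2)
    (hg2 : ∀ n, MemLp (g n) 2) (hug : ∀ n a b, u n b - u n a = ∫ x in a..b, g n x)
    (ho : ∀ n m, ∫ x, star (u n x) * u m x = if n = m then (1:ℂ) else 0) :
    (∑ n, ν n * ∫ x, ‖g n x‖ ^ 2 = π ^ 2 / 4 * ∫ x, (∑ n, ν n * ‖u n x‖ ^ 2) ^ 3) ↔
      N = 1 ∧ (∀ n, ν n = 1) ∧ ∃ b : ℝ, 0 < b ∧ ∃ (x₀ : ℝ) (α : ℂ), ‖α‖ = 1 ∧
        ∀ n x, u n x = α * (√(b / cosh (π * b * (x - x₀))) : ℝ) := by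
  have hui : ∀ n, Integrable (fun x => ‖u n x‖ ^ 2) := fun n =>
    (hu2 n).integrable_norm_pow (by norm_num)
  have hgi : ∀ n, Integrable (fun x => ‖g n x‖ ^ 2) := fun n =>
    (hg2 n).integrable_norm_pow (by norm_num)
  have hnn : ∀ (n : Fin N) (z : ℂ), ‖(√(ν n) : ℂ) * z‖ ^ 2 = ν n * ‖z‖ ^ 2 := by
    intro n z
    rw [norm_mul, mul_pow, Complex.norm_real, Real.norm_eq_abs, sq_abs, Real.sq_sqrt (hν n).1.le]
  have hsys : SysW (fun x => realify fun n => (√(ν n) : ℂ) * u n x)
      (fun x => realify fun n => (√(ν n) : ℂ) * g n x) := by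
    refine sysW_of_complex (fun n x => (√(ν n) : ℂ) * u n x) (fun n x => (√(ν n) : ℂ) * g n x)
      (fun n => (hu2 n).const_mul _) (fun n => (hg2 n).const_mul _) (fun n a b => ?_)
      (bessel_weighted u ν (fun n => ⟨(hν n).1.le, (hν n).2⟩) (fun n => (hu2 n).1) hui ho)
    rw [intervalIntegral.integral_const_mul, ← hug]
    ring
  have hL : ∫ x, ‖realify fun n => (√(ν n) : ℂ) * g n x‖ ^ 2 =
      ∑ n, ν n * ∫ x, ‖g n x‖ ^ 2 := by
    simp only [realify_norm, hnn]
    rw [integral_finsetSum _ fun n _ => (hgi n).const_mul _]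
    exact Finset.sum_congr rfl fun n _ => integral_const_mul _ _
  have hR : ∫ x, (‖realify fun n => (√(ν n) : ℂ) * u n x‖ ^ 2) ^ 3 =
      ∫ x, (∑ n, ν n * ‖u n x‖ ^ 2) ^ 3 := by
    simp only [realify_norm, hnn]
  constructor
  · intro heq
    have heq' : ∫ x, ‖realify fun n => (√(ν n) : ℂ) * g n x‖ ^ 2 ≤
        π ^ 2 / 4 * ∫ x, (‖realify fun n => (√(ν n) : ℂ) * u n x‖ ^ 2) ^ 3 := by
      rw [hL, hR]; exact heq.le
    have hne : ∃ a, (realify fun n => (√(ν n) : ℂ) * u n a) ≠ 0 := by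
      by_contra hcon
      push Not at hcon
      have h0 : ∀ x, u ⟨0, hN⟩ x = 0 := by
        intro x
        have h1 := realify_norm fun n => (√(ν n) : ℂ) * u n x
        rw [hcon x, norm_zero, zero_pow two_ne_zero] at h1
        have h2 := (Finset.sum_eq_zero_iff_of_nonneg (fun n _ => sq_nonneg _)).1 h1.symm
          ⟨0, hN⟩ (Finset.mem_univ _)
        rw [hnn] at h2
        have h3 := (mul_eq_zero.1 h2).resolve_left (hν _).1.ne'
        exact norm_eq_zero.1 (pow_eq_zero_iff two_ne_zero |>.1 h3)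
      have h4 := ho ⟨0, hN⟩ ⟨0, hN⟩
      simp [h0] at h4
    obtain ⟨b, hb, x₀, v, hv, hprof⟩ := hsys.rigid heq' hne
    -- the components
    set z : Fin N → ℂ := fun n => ⟨v (Sum.inl n), v (Sum.inr n)⟩ with hz
    have hzv : ∑ n, ‖z n‖ ^ 2 = 1 := by
      have h1 : ‖v‖ ^ 2 = ∑ n, ‖z n‖ ^ 2 := by
        rw [EuclideanSpace.norm_sq_eq, Fintype.sum_sum_type, ← Finset.sum_add_distrib]
        refine Finset.sum_congr rfl fun n _ => ?_
        rw [sqn]
        simp [hz]
      rw [← h1, hv, one_pow]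
    have hcomp : ∀ n x, (√(ν n) : ℂ) * u n x = (pf b x₀ x : ℂ) * z n := by
      intro n x
      have h1 := hprof x
      have h2 := congrArg (fun w : EuclideanSpace ℝ (Fin N ⊕ Fin N) => w (Sum.inl n)) h1
      have h3 := congrArg (fun w : EuclideanSpace ℝ (Fin N ⊕ Fin N) => w (Sum.inr n)) h1
      simp only [realify, Sum.elim_inl, Sum.elim_inr, PiLp.smul_apply, smul_eq_mul] at h2 h3
      apply Complex.ext
      · rw [h2]
        simp [hz, pf]
      · rw [h3]
        simp [hz, pf]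
    have hs0 : ∀ n, (√(ν n) : ℂ) ≠ 0 := fun n => by
      exact_mod_cast (Real.sqrt_pos.2 (hν n).1).ne'
    have hsq : ∀ n, (√(ν n) : ℂ) * (√(ν n) : ℂ) = (ν n : ℂ) := fun n => by
      rw [← Complex.ofReal_mul, Real.mul_self_sqrt (hν n).1.le]
    have hgram : ∀ n m, star (z n) * z m = if n = m then (ν n : ℂ) else 0 := by
      intro n m
      have h1 : ∀ x, (√(ν n) : ℂ) * (√(ν m) : ℂ) * (star (u n x) * u m x) =
          star (z n) * z m * ((b / cosh (π * b * (x - x₀)) : ℝ) : ℂ) := by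
        intro x
        have h2 : star ((√(ν n) : ℂ) * u n x) * ((√(ν m) : ℂ) * u m x) =
            star ((pf b x₀ x : ℂ) * z n) * ((pf b x₀ x : ℂ) * z m) := by
          rw [hcomp, hcomp]
        rw [star_mul', star_mul'] at h2
        simp only [Complex.star_def, Complex.conj_ofReal] at h2 ⊢
        rw [← pf_sq hb]
        push_cast
        linear_combination h2
      have h3 : ∫ x, (√(ν n) : ℂ) * (√(ν m) : ℂ) * (star (u n x) * u m x) =
          ∫ x, star (z n) * z m * ((b / cosh (π * b * (x - x₀)) : ℝ) : ℂ) :=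
        integral_congr_ae (Eventually.of_forall h1)
      rw [integral_const_mul, integral_const_mul, ho, integral_complex_ofReal,
        integral_prof hb, Complex.ofReal_one, mul_one] at h3
      rw [← h3]
      by_cases hnm : n = m
      · subst hnm; rw [if_pos rfl, if_pos rfl, mul_one, hsq]
      · rw [if_neg hnm, if_neg hnm, mul_zero]
    have hz0 : ∀ n, z n ≠ 0 := by
      intro n hzn
      have h1 := hgram n n
      rw [hzn, mul_zero, if_pos rfl] at h1
      exact (hν n).1.ne' (by exact_mod_cast h1.symm)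
    have hsub : ∀ n m : Fin N, n = m := by
      intro n m
      by_contra hnm
      have h1 := hgram n m
      rw [if_neg hnm] at h1
      rcases mul_eq_zero.1 h1 with h2 | h2
      · exact hz0 n (star_eq_zero.1 h2)
      · exact hz0 m h2
    have hN1 : N = 1 := by
      by_contra hcon
      have h2 : 2 ≤ N := by omega
      have := hsub ⟨0, by omega⟩ ⟨1, by omega⟩
      simp at this
    have hzn : ∀ n, ‖z n‖ ^ 2 = 1 := by
      intro n
      rw [← hzv]
      subst hN1
      rw [Finset.univ_unique, Finset.sum_singleton]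
      congr 3
      exact hsub _ _
    have hν1 : ∀ n, ν n = 1 := by
      intro n
      have h1 := hgram n n
      rw [if_pos rfl] at h1
      have h2 : star (z n) * z n = ((‖z n‖ ^ 2 : ℝ) : ℂ) := by
        rw [mul_comm, ← Complex.normSq_eq_norm_sq]
        exact Complex.mul_conj _
      rw [h2, hzn] at h1
      exact_mod_cast h1.symm
    refine ⟨hN1, hν1, b, hb, x₀, z ⟨0, hN⟩, ?_, fun n x => ?_⟩
    · have := hzn ⟨0, hN⟩
      nlinarith [norm_nonneg (z ⟨0, hN⟩)]
    · have h1 := hcomp n x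
      rw [hν1 n, Real.sqrt_one, Complex.ofReal_one, one_mul, hsub n ⟨0, hN⟩] at h1
      rw [hsub n ⟨0, hN⟩, h1, pf]
      ring
  · rintro ⟨hN1, hν1, b, hb, x₀, α, hα, hu⟩
    subst hN1
    have hπ := pi_pos
    have hc : (0:ℝ) < π * b := by positivity
    have huf : ∀ n, u n = fun x => α * (pf b x₀ x : ℂ) := fun n => funext fun x => hu n x
    have hder : ∀ n : Fin 1, ∀ᵐ x, HasDerivAt (u n) (g n x) x := by
      intro n
      have hloc : LocallyIntegrable (g n) volume := (hg2 n).locallyIntegrable (by norm_num)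
      filter_upwards [_root_.LocallyIntegrable.ae_hasDerivAt_integral hloc] with x hx
      have : u n = fun x => u n 0 + ∫ t in (0:ℝ)..x, g n t := by
        funext x; rw [← hug n 0 x]; ring
      rw [this]
      exact (hx 0).const_add _
    have hg : ∀ n : Fin 1, ∀ᵐ x, ‖g n x‖ ^ 2 =
        b * (π * b) ^ 2 * Pool.Helper490.Sech.w' (π * b * (x - x₀)) ^ 2 := by
      intro n
      filter_upwards [hder n] with x hx
      have h1 : HasDerivAt (u n) (α *
          ((√b * (Pool.Helper490.Sech.w' (π * b * (x - x₀)) * (π * b)) : ℝ) : ℂ)) x := by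
        rw [huf n]
        exact ((pf_deriv hb x₀ x).ofReal_comp).const_mul α
      rw [hx.unique h1, norm_mul, hα, one_mul, Complex.norm_real, Real.norm_eq_abs, sq_abs]
      rw [mul_pow, Real.sq_sqrt hb.le]
      ring
    have hgint : ∀ n : Fin 1, ∫ x, ‖g n x‖ ^ 2 = π ^ 2 * b ^ 2 / 8 := by
      intro n
      rw [integral_congr_ae (hg n), integral_const_mul,
        integral_scale (fun x => Pool.Helper490.Sech.w' x ^ 2) hc,
        Pool.Helper490.Sech.integral_w'_sq]
      field_simp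
    have hρ : ∀ x, (∑ n : Fin 1, ν n * ‖u n x‖ ^ 2) ^ 3 =
        b ^ 3 * (Pool.Helper490.Sech.w (π * b * (x - x₀)) ^ 2) ^ 3 := by
      intro x
      rw [Finset.univ_unique, Finset.sum_singleton, hν1, one_mul, huf, norm_mul, hα, one_mul,
        Complex.norm_real, Real.norm_eq_abs, sq_abs, pf_eq hb, mul_pow, Real.sq_sqrt hb.le]
      ring
    simp only [hρ]
    rw [integral_const_mul, integral_scale (fun x => (Pool.Helper490.Sech.w x ^ 2) ^ 3) hc,
      Pool.Helper490.Sech.integral_w_six, Finset.univ_unique, Finset.sum_singleton, hν1, hgint]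
    field_simp
    ring

end Pool.Agent.R282.KE
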