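import Pool.Agent.R282.KE.Rig

set_option autoImplicit false
set_option linter.unusedSectionVars false
set_option linter.deprecated false

open MeasureTheory Set Filter Topology Real
open scoped RealInnerProductSpace ENNReal

namespace Pool.Agent.R282.KE

open Pool.Helper490.Calib

lemma const_of_deriv_zero {F : Type*} [NormedAddCommGroup F] [NormedSpace ℝ F] [CompleteSpace F]
    {f : ℝ → F} {a b : ℝ} (hf : ∀ x ∈ uIcc a b, HasDerivAt f 0 x) : f b = f a := by
  have := intervalIntegral.integral_eq_sub_of_hasDerivAt (f := f) (f' := fun _ => (0:F)) hf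
    (by simp)
  rw [intervalIntegral.integral_zero] at this
  exact (sub_eq_zero.1 this.symm)

variable {E : Type*} [NormedAddCommGroup E] [InnerProductSpace ℝ E] [FiniteDimensional ℝ E]

/-- The profile. -/
noncomputable def prof (A T a x : ℝ) : ℝ :=
  A * (2 * (T * exp (π * A * (x - a))) / (1 + (T * exp (π * A * (x - a))) ^ 2))

lemma prof_cont (A T a : ℝ) : Continuous (prof A T a) := by
  unfold prof
  refine continuous_const.mul (Continuous.div ?_ ?_ fun x => ?_)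
  · fun_prop
  · fun_prop
  · positivity

lemma prof_pos {A T : ℝ} (hA : 0 < A) (hT : 0 < T) (a x : ℝ) : 0 < prof A T a x := by
  unfold prof
  positivity

lemma cos_eq_tan {e : ℝ} (he1 : -(1 / 2) < e) (he2 : e < 1 / 2) :
    0 < tan (π / 2 * e + π / 4) ∧ cos (π * e) =
      2 * tan (π / 2 * e + π / 4) / (1 + tan (π / 2 * e + π / 4) ^ 2) := by
  have hc : 0 < cos (π / 2 * e + π / 4) :=
    cos_pos_of_mem_Ioo ⟨by nlinarith [pi_pos], by nlinarith [pi_pos]⟩
  have hs : 0 < sin (π / 2 * e + π / 4) :=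
    sin_pos_of_pos_of_lt_pi (by nlinarith [pi_pos]) (by nlinarith [pi_pos])
  have hcos : cos (π * e) =
      2 * sin (π / 2 * e + π / 4) * cos (π / 2 * e + π / 4) := by
    rw [← sin_two_mul, ← sin_pi_div_two_sub, ← sin_pi_sub]
    congr 1
    ring
  refine ⟨?_, ?_⟩
  · rw [tan_eq_sin_div_cos]; positivity
  · rw [hcos, tan_eq_sin_div_cos]
    generalize (π / 2 * e + π / 4) = τ at hc hs ⊢
    have h1 := sin_sq_add_cos_sq τ
    rw [div_pow, eq_div_iff (by positivity)]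
    field_simp
    linear_combination h1

namespace SysW

variable {u u' : ℝ → E} (h : SysW u u')
include h

lemma profile (heq : ∫ x, ‖u' x‖ ^ 2 ≤ π ^ 2 / 4 * ∫ x, (‖u x‖ ^ 2) ^ 3) {a b : ℝ}
    (hab : ∀ x ∈ uIcc a b, u x ≠ 0) :
    ‖u b‖ ^ 2 = prof (‖u a‖ ^ 2 / cos (π * ee u a)) (tan (π / 2 * ee u a + π / 4)) a b ∧
      (‖u b‖)⁻¹ • u b = (‖u a‖)⁻¹ • u a := by
  have hA : ∀ x ∈ uIcc a b, ‖u x‖ ^ 2 / cos (π * ee u x) = ‖u a‖ ^ 2 / cos (π * ee u a) := by
    intro x hx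
    exact const_of_deriv_zero (f := fun x => ‖u x‖ ^ 2 / cos (π * ee u x)) (a := a) (b := x)
      fun y hy => h.AA_deriv heq (hab y (uIcc_subset_uIcc_left hx hy))
  set A := ‖u a‖ ^ 2 / cos (π * ee u a) with hAdef
  have hT : tan (π / 2 * ee u b + π / 4) * exp (-(π * A * (b - a))) =
      tan (π / 2 * ee u a + π / 4) * exp (-(π * A * (a - a))) := by
    refine const_of_deriv_zero
      (f := fun x => tan (π / 2 * ee u x + π / 4) * exp (-(π * A * (x - a)))) fun x hx => ?_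
    have h1 := h.TT_deriv heq (hab x hx)
    rw [hA x hx] at h1
    have h2 : HasDerivAt (fun x => -(π * A * (x - a))) (-(π * A * 1)) x :=
      (((hasDerivAt_id x).sub_const a).const_mul (π * A)).neg
    refine (h1.mul h2.exp).congr_deriv ?_
    ring
  rw [sub_self, mul_zero, neg_zero, exp_zero, mul_one, exp_neg, ← div_eq_mul_inv,
    div_eq_iff (exp_pos _).ne'] at hT
  refine ⟨?_, ?_⟩
  · have hb := hab b right_mem_uIcc
    obtain ⟨he1, he2⟩ := h.ee_mem heq hb
    have h3 := (cos_eq_tan he1 he2).2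
    have h4 := hA b right_mem_uIcc
    rw [div_eq_iff (h.cos_pos' heq hb).ne'] at h4
    rw [h4, h3, prof, hT]
  · exact const_of_deriv_zero (f := fun x => (‖u x‖)⁻¹ • u x) fun x hx =>
      h.dir_deriv heq (hab x hx)

lemma nonzero (heq : ∫ x, ‖u' x‖ ^ 2 ≤ π ^ 2 / 4 * ∫ x, (‖u x‖ ^ 2) ^ 3) {a : ℝ}
    (ha : u a ≠ 0) (y : ℝ) : u y ≠ 0 := by
  intro hy
  set γ : ℝ → ℝ := fun t => a + t * (y - a) with hγ
  have hγc : Continuous γ := by fun_prop
  set Z : Set ℝ := {t | t ∈ Icc (0:ℝ) 1 ∧ u (γ t) = 0} with hZ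
  have hZc : IsClosed Z := isClosed_Icc.inter
    (isClosed_eq (h.uc.comp hγc) continuous_const)
  have hZne : Z.Nonempty := ⟨1, ⟨zero_le_one, le_rfl⟩, by simp [hγ, hy]⟩
  have hZb : BddBelow Z := ⟨0, fun t ht => ht.1.1⟩
  have hmem := hZc.csInf_mem hZne hZb
  set s := sInf Z with hs
  have hlt : ∀ t, 0 ≤ t → t < s → u (γ t) ≠ 0 := by
    intro t h0 h1 h2
    exact absurd (csInf_le hZb ⟨⟨h0, (h1.le.trans hmem.1.2)⟩, h2⟩) (not_le.2 h1)
  have hs0 : 0 < s := by
    rcases hmem.1.1.eq_or_lt with h0 | h0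
    · exfalso
      have := hmem.2
      rw [← h0] at this
      simp only [hγ, zero_mul, add_zero] at this
      exact ha this
    · exact h0
  set A := ‖u a‖ ^ 2 / cos (π * ee u a) with hA
  set T := tan (π / 2 * ee u a + π / 4) with hT
  obtain ⟨he1, he2⟩ := h.ee_mem heq ha
  have hAp : 0 < A := div_pos (by positivity) (h.cos_pos' heq ha)
  have hTp : 0 < T := (cos_eq_tan he1 he2).1
  have hprof : ∀ t ∈ Ico 0 s, ‖u (γ t)‖ ^ 2 = prof A T a (γ t) := by
    intro t ht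
    refine (h.profile heq fun x hx => ?_).1
    have hseg : ∃ r ∈ Icc 0 t, x = γ r := by
      rcases le_total a (γ t) with hle | hle
      · rw [uIcc_of_le hle] at hx
        obtain ⟨r, hr, hrx⟩ := intermediate_value_Icc ht.1 hγc.continuousOn
          (show x ∈ Icc (γ 0) (γ t) by simpa [hγ] using hx)
        exact ⟨r, hr, hrx.symm⟩
      · rw [uIcc_of_ge hle] at hx
        obtain ⟨r, hr, hrx⟩ := intermediate_value_Icc' ht.1 hγc.continuousOn
          (show x ∈ Icc (γ t) (γ 0) by simpa [hγ] using hx)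
        exact ⟨r, hr, hrx.symm⟩
    obtain ⟨r, hr, rfl⟩ := hseg
    exact hlt r hr.1 (lt_of_le_of_lt hr.2 ht.2)
  have hcl : IsClosed {t | ‖u (γ t)‖ ^ 2 = prof A T a (γ t)} :=
    isClosed_eq ((h.uc.comp hγc).norm.pow 2) ((prof_cont A T a).comp hγc)
  have hsub : closure (Ico 0 s) ⊆ {t | ‖u (γ t)‖ ^ 2 = prof A T a (γ t)} :=
    hcl.closure_subset_iff.2 hprof
  rw [closure_Ico hs0.ne] at hsub
  have hfin : ‖u (γ s)‖ ^ 2 = prof A T a (γ s) := hsub ⟨hs0.le, le_rfl⟩
  have hp := prof_pos hAp hTp a (γ s)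
  rw [← hfin, hmem.2] at hp
  simp at hp

/-- **Rigidity.** -/
theorem rigid (heq : ∫ x, ‖u' x‖ ^ 2 ≤ π ^ 2 / 4 * ∫ x, (‖u x‖ ^ 2) ^ 3)
    (hne : ∃ a, u a ≠ 0) : ∃ b : ℝ, 0 < b ∧ ∃ (x₀ : ℝ) (v : E), ‖v‖ = 1 ∧
      ∀ x, u x = √(b / cosh (π * b * (x - x₀))) • v := by
  obtain ⟨a, ha⟩ := hne
  have hall := h.nonzero heq ha
  have ha := hall 0
  obtain ⟨he1, he2⟩ := h.ee_mem heq ha
  have hpr := fun x => h.profile heq (a := 0) (b := x) fun y _ => hall y
  set A := ‖u 0‖ ^ 2 / cos (π * ee u 0) with hA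
  set T := tan (π / 2 * ee u 0 + π / 4) with hT
  have hAp : 0 < A := div_pos (by positivity) (h.cos_pos' heq ha)
  have hTp : 0 < T := (cos_eq_tan he1 he2).1
  refine ⟨A, hAp, -log T / (π * A), (‖u 0‖)⁻¹ • u 0, ?_, fun x => ?_⟩
  · rw [norm_smul, norm_inv, norm_norm, inv_mul_cancel₀ (norm_ne_zero_iff.2 ha)]
  · obtain ⟨h1, h2⟩ := hpr x
    have hπ := pi_pos
    have hx : (0:ℝ) < ‖u x‖ := norm_pos_iff.2 (hall x)
    set τ := π * A * (x - -log T / (π * A)) with hτ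
    have hτ2 : T * exp (π * A * (x - 0)) = exp τ := by
      have e : τ = log T + π * A * (x - 0) := by
        rw [hτ]; field_simp; ring
      rw [e, exp_add, exp_log hTp]
    have e1 : ‖u x‖ ^ 2 = A / cosh τ := by
      rw [h1, prof, hτ2, cosh_eq, exp_neg]
      have := exp_pos τ
      field_simp
      ring
    rw [← e1, sqrt_sq hx.le, ← h2, smul_smul, mul_inv_cancel₀ hx.ne', one_smul]

end SysW

end Pool.Agent.R282.KE
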