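import Pool.Agent.R282.KE.Cx

set_option autoImplicit false
set_option linter.unusedSectionVars false
set_option linter.deprecated false

open MeasureTheory Set Filter Topology Real
open scoped RealInnerProductSpace ENNReal

namespace Pool.Agent.R282.KE

open Pool.Helper490.Calib

lemma seq_lim (I : ℝ) : Tendsto (fun n : ℕ =>
    ((π - 1 / ((n:ℝ) + 1)) ^ 2 / 4 - 1 / ((n:ℝ) + 1)) * I) atTop (𝓝 (π ^ 2 / 4 * I)) := by
  have h1 : Tendsto (fun n : ℕ => (1 / ((n:ℝ) + 1) : ℝ)) atTop (𝓝 0) :=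
    tendsto_one_div_add_atTop_nhds_zero_nat
  have h2 := ((((h1.const_sub π).pow 2).div_const 4).sub h1).mul_const I
  simpa using h2

lemma seq_mem (n : ℕ) : 0 < 1 / ((n:ℝ) + 1) ∧ π / 2 < π - 1 / ((n:ℝ) + 1) ∧
    π - 1 / ((n:ℝ) + 1) < π := by
  have hn : (0:ℝ) < 1 / ((n:ℝ) + 1) := by positivity
  have hn1 : 1 / ((n:ℝ) + 1) ≤ 1 := by
    rw [div_le_one (by positivity)]
    linarith [(Nat.cast_nonneg n : (0:ℝ) ≤ n)]
  refine ⟨hn, ?_, by linarith⟩
  linarith [pi_gt_three]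

variable {E : Type*} [NormedAddCommGroup E] [InnerProductSpace ℝ E] [FiniteDimensional ℝ E]

namespace SysW

variable {u u' : ℝ → E} (h : SysW u u')
include h

/-- The sharp inequality. -/
theorem sharp_sys : π ^ 2 / 4 * ∫ x, (‖u x‖ ^ 2) ^ 3 ≤ ∫ x, ‖u' x‖ ^ 2 := by
  refine le_of_tendsto (seq_lim _) (Eventually.of_forall fun n => ?_)
  obtain ⟨h1, h2, h3⟩ := seq_mem n
  have := h.nonneg_theta (by linarith [pi_pos]) h3 h1
  linarith

/-- The sharp inequality with the variance term. -/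
theorem remainder : Integrable (fun x => ‖u x‖ ^ 2 * varT u x) ∧
    π ^ 2 / 4 * (∫ x, (‖u x‖ ^ 2) ^ 3) + π ^ 2 / 8 * ∫ x, ‖u x‖ ^ 2 * varT u x ≤
      ∫ x, ‖u' x‖ ^ 2 := by
  set I := ∫ x, (‖u x‖ ^ 2) ^ 3 with hI
  set F : ℝ → ℝ := fun x => ‖u x‖ ^ 2 * varT u x with hF
  have hFc : Continuous F := (h.uc.norm.pow 2).mul h.varT_cont
  have hF0 : ∀ x, 0 ≤ F x := fun x => mul_nonneg (sq_nonneg _) (h.varT_nonneg x)
  have hb : ∀ n : ℕ, ENNReal.ofReal ((π - 1 / ((n:ℝ) + 1)) ^ 4 / (8 * π ^ 2)) *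
      ∫⁻ x, ENNReal.ofReal (F x) ≤ ENNReal.ofReal ((∫ x, ‖u' x‖ ^ 2) -
        ((π - 1 / ((n:ℝ) + 1)) ^ 2 / 4 - 1 / ((n:ℝ) + 1)) * I) := by
    intro n
    obtain ⟨h1, h2, h3⟩ := seq_mem n
    obtain ⟨P', η, -, -, -, hle⟩ := h.sharp_theta (by linarith [pi_pos]) h3 h1
    rw [← lintegral_const_mul _ hFc.measurable.ennreal_ofReal]
    refine le_trans (lintegral_mono fun x => ?_) hle
    rw [← ENNReal.ofReal_mul (by positivity)]
    refine ENNReal.ofReal_le_ofReal ?_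
    have h8 := sq_nonneg ‖u' x - η x‖
    have e : (π - 1 / ((n:ℝ) + 1)) ^ 4 / (16 * π ^ 2) * (2 * ‖u x‖ ^ 2 * varT u x) =
        (π - 1 / ((n:ℝ) + 1)) ^ 4 / (8 * π ^ 2) * F x := by
      simp only [hF]
      ring
    rw [e]
    linarith
  have hl1 : Tendsto (fun n : ℕ => ENNReal.ofReal ((π - 1 / ((n:ℝ) + 1)) ^ 4 / (8 * π ^ 2)) *
      ∫⁻ x, ENNReal.ofReal (F x)) atTop
      (𝓝 (ENNReal.ofReal (π ^ 2 / 8) * ∫⁻ x, ENNReal.ofReal (F x))) := by
    have h1 : Tendsto (fun n : ℕ => (1 / ((n:ℝ) + 1) : ℝ)) atTop (𝓝 0) :=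
      tendsto_one_div_add_atTop_nhds_zero_nat
    have h2 : Tendsto (fun n : ℕ => (π - 1 / ((n:ℝ) + 1)) ^ 4 / (8 * π ^ 2)) atTop
        (𝓝 (π ^ 2 / 8)) := by
      have h3 := ((h1.const_sub π).pow 4).div_const (8 * π ^ 2)
      have e : (π - 0) ^ 4 / (8 * π ^ 2) = π ^ 2 / 8 := by
        have := pi_pos.ne'
        rw [sub_zero]
        field_simp
      rwa [e] at h3
    refine ENNReal.Tendsto.mul_const ((ENNReal.continuous_ofReal.tendsto _).comp h2) (Or.inl ?_)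
    exact (ENNReal.ofReal_pos.2 (by positivity)).ne'
  have hl2 : Tendsto (fun n : ℕ => ENNReal.ofReal ((∫ x, ‖u' x‖ ^ 2) -
        ((π - 1 / ((n:ℝ) + 1)) ^ 2 / 4 - 1 / ((n:ℝ) + 1)) * I)) atTop
      (𝓝 (ENNReal.ofReal ((∫ x, ‖u' x‖ ^ 2) - π ^ 2 / 4 * I))) :=
    (ENNReal.continuous_ofReal.tendsto _).comp ((seq_lim I).const_sub _)
  have hlim := le_of_tendsto_of_tendsto' hl1 hl2 hb
  have hfin : ∫⁻ x, ENNReal.ofReal (F x) ≠ ∞ := by
    intro hcon
    rw [hcon, ENNReal.mul_top (ENNReal.ofReal_pos.2 (by positivity)).ne'] at hlim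
    exact absurd hlim (not_le.2 ENNReal.ofReal_lt_top)
  have hFi : Integrable F := by
    refine ⟨hFc.aestronglyMeasurable, ?_⟩
    rw [hasFiniteIntegral_iff_ofReal (Eventually.of_forall hF0)]
    exact lt_top_iff_ne_top.2 hfin
  refine ⟨hFi, ?_⟩
  rw [← ofReal_integral_eq_lintegral_ofReal hFi (Eventually.of_forall hF0),
    ← ENNReal.ofReal_mul (by positivity)] at hlim
  have h0 := h.sharp_sys
  rw [ENNReal.ofReal_le_ofReal_iff (by linarith)] at hlim
  linarith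

/-- The variance in terms of the kernel. -/
theorem varT_eq (x : ℝ) : varT u x = ‖u x‖ ^ 2 *
    (∫ y in Iic x, ⟪u x, u y⟫ * ∫ z in Iic x, ⟪u y, u z⟫ * ⟪u z, u x⟫) -
    (∫ y in Iic x, ⟪u x, u y⟫ ^ 2) ^ 2 := by
  have h1 : ⟪Gam u x (u x), u x⟫ = ∫ y in Iic x, ⟪u x, u y⟫ ^ 2 := by
    rw [h.Gam_inner]
    refine integral_congr_ae (Eventually.of_forall fun y => ?_)
    simp only
    rw [real_inner_comm (u x) (u y)]
    ring
  have h2 : ⟪Gam u x (u x), Gam u x (u x)⟫ =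
      ∫ y in Iic x, ⟪u x, u y⟫ * ∫ z in Iic x, ⟪u y, u z⟫ * ⟪u z, u x⟫ := by
    rw [h.Gam_inner]
    refine integral_congr_ae (Eventually.of_forall fun y => ?_)
    simp only
    rw [real_inner_comm (u x) (u y), real_inner_comm (Gam u x (u x)) (u y), h.Gam_inner]
    congr 1
    refine integral_congr_ae (Eventually.of_forall fun z => ?_)
    simp only
    rw [real_inner_comm (u y) (u z)]
    ring
  have h3 : mo u 1 x = ⟪Gam u x (u x), u x⟫ - 1 / 2 * ‖u x‖ ^ 2 := by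
    rw [mo, pow_one, real_inner_comm, h.Bop_inner, real_inner_self_eq_norm_sq]
  have h4 : mo u 2 x = ⟪Gam u x (u x), Gam u x (u x)⟫ - ⟪Gam u x (u x), u x⟫ +
      1 / 4 * ‖u x‖ ^ 2 := by
    have e : (Bop u x ^ 2) (u x) = Bop u x (Bop u x (u x)) := by
      rw [pow_two, ContinuousLinearMap.mul_apply]
    rw [mo, e, ← h.Bop_symm]
    simp only [Bop, ContinuousLinearMap.sub_apply, ContinuousLinearMap.smul_apply,
      ContinuousLinearMap.one_apply, inner_sub_left, inner_sub_right, real_inner_smul_left,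
      real_inner_smul_right]
    rw [real_inner_comm (Gam u x (u x)) (u x), real_inner_self_eq_norm_sq (u x)]
    ring
  rw [varT, h3, h4, h1, h2]
  ring

end SysW

/-- The real part of the kernel of the density matrix. -/
noncomputable def ker {N : ℕ} (u : Fin N → ℝ → ℂ) (ν : Fin N → ℝ) (x y : ℝ) : ℝ :=
  ∑ n, ν n * (u n x * star (u n y)).re

/-- The sharp inequality with the variance term, for weighted orthonormal families. -/
theorem complex_remainder (N : ℕ) (u g : Fin N → ℝ → ℂ) (ν : Fin N → ℝ)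
    (hν : ∀ n, 0 ≤ ν n ∧ ν n ≤ 1) (hu2 : ∀ n, MemLp (u n) 2)
    (hg2 : ∀ n, MemLp (g n) 2) (hug : ∀ n a b, u n b - u n a = ∫ x in a..b, g n x)
    (ho : ∀ n m, ∫ x, star (u n x) * u m x = if n = m then (1:ℂ) else 0) :
    (∀ x, 0 ≤ ker u ν x x * (∫ y in Iic x, ker u ν x y * ∫ z in Iic x, ker u ν y z * ker u ν z x) -
        (∫ y in Iic x, ker u ν x y ^ 2) ^ 2) ∧
    Integrable (fun x => ker u ν x x ^ 3) ∧
    Integrable (fun x => ker u ν x x * (ker u ν x x *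
      (∫ y in Iic x, ker u ν x y * ∫ z in Iic x, ker u ν y z * ker u ν z x) -
        (∫ y in Iic x, ker u ν x y ^ 2) ^ 2)) ∧
    π ^ 2 / 4 * (∫ x, ker u ν x x ^ 3) + π ^ 2 / 8 * (∫ x, ker u ν x x * (ker u ν x x *
      (∫ y in Iic x, ker u ν x y * ∫ z in Iic x, ker u ν y z * ker u ν z x) -
        (∫ y in Iic x, ker u ν x y ^ 2) ^ 2)) ≤ ∑ n, ν n * ∫ x, ‖g n x‖ ^ 2 := by
  have hui : ∀ n, Integrable (fun x => ‖u n x‖ ^ 2) := fun n =>
    (hu2 n).integrable_norm_pow (by norm_num)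
  have hgi : ∀ n, Integrable (fun x => ‖g n x‖ ^ 2) := fun n =>
    (hg2 n).integrable_norm_pow (by norm_num)
  have hnn : ∀ (n : Fin N) (z : ℂ), ‖(√(ν n) : ℂ) * z‖ ^ 2 = ν n * ‖z‖ ^ 2 := by
    intro n z
    rw [norm_mul, mul_pow, Complex.norm_real, Real.norm_eq_abs, sq_abs, Real.sq_sqrt (hν n).1]
  set U : ℝ → EuclideanSpace ℝ (Fin N ⊕ Fin N) :=
    fun x => realify fun n => (√(ν n) : ℂ) * u n x with hU
  have hsys : SysW U (fun x => realify fun n => (√(ν n) : ℂ) * g n x) := by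
    refine sysW_of_complex (fun n x => (√(ν n) : ℂ) * u n x) (fun n x => (√(ν n) : ℂ) * g n x)
      (fun n => (hu2 n).const_mul _) (fun n => (hg2 n).const_mul _) (fun n a b => ?_)
      (bessel_weighted u ν hν (fun n => (hu2 n).1) hui ho)
    rw [intervalIntegral.integral_const_mul, ← hug]
    ring
  have hL : ∫ x, ‖realify fun n => (√(ν n) : ℂ) * g n x‖ ^ 2 =
      ∑ n, ν n * ∫ x, ‖g n x‖ ^ 2 := by
    simp only [realify_norm, hnn]
    rw [integral_finsetSum _ fun n _ => (hgi n).const_mul _]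
    exact Finset.sum_congr rfl fun n _ => integral_const_mul _ _
  have hin : ∀ x y, ⟪U x, U y⟫ = ker u ν x y := by
    intro x y
    simp only [hU]
    rw [realify_inner, ker, Complex.re_sum]
    refine Finset.sum_congr rfl fun n _ => ?_
    have e1 : (⟨(realify fun n => (√(ν n) : ℂ) * u n y) (Sum.inl n),
        (realify fun n => (√(ν n) : ℂ) * u n y) (Sum.inr n)⟩ : ℂ) = (√(ν n) : ℂ) * u n y := by
      apply Complex.ext <;> simp [realify]
    rw [e1, star_mul', Complex.star_def, Complex.conj_ofReal]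
    have e2 : (√(ν n) : ℂ) * star (u n y) * ((√(ν n) : ℂ) * u n x) =
        ((ν n : ℝ) : ℂ) * (u n x * star (u n y)) := by
      have e3 : ((ν n : ℝ) : ℂ) = (√(ν n) : ℂ) * (√(ν n) : ℂ) := by
        rw [← Complex.ofReal_mul, Real.mul_self_sqrt (hν n).1]
      rw [e3]
      ring
    have e4 : (√(ν n) : ℂ) * (starRingEnd ℂ) (u n y) * ((√(ν n) : ℂ) * u n x) =
        ((ν n : ℝ) : ℂ) * (u n x * star (u n y)) := e2
    rw [e4, Complex.re_ofReal_mul]
    rfl
  have hnorm : ∀ x, ‖U x‖ ^ 2 = ker u ν x x := by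
    intro x
    rw [← hin, real_inner_self_eq_norm_sq]
  have hvar : ∀ x, varT U x = ker u ν x x *
      (∫ y in Iic x, ker u ν x y * ∫ z in Iic x, ker u ν y z * ker u ν z x) -
        (∫ y in Iic x, ker u ν x y ^ 2) ^ 2 := by
    intro x
    rw [hsys.varT_eq, hnorm]
    simp only [hin]
  have h1 := hsys.remainder
  simp only [hnorm, hvar, hL] at h1
  refine ⟨fun x => ?_, ?_, h1.1, h1.2⟩
  · rw [← hvar]
    exact hsys.varT_nonneg x
  · have := hsys.rho3_int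
    simpa only [hnorm] using this

end Pool.Agent.R282.KE
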