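import Pool.Agent.R282.KE.Cal

set_option autoImplicit false
set_option linter.unusedSectionVars false
set_option linter.deprecated false

open MeasureTheory Set Filter Topology Real
open scoped RealInnerProductSpace ENNReal

namespace Pool.Agent.R282.KE

open Pool.Helper490.Calib

variable {E : Type*} [NormedAddCommGroup E] [InnerProductSpace ℝ E] [FiniteDimensional ℝ E]

/-- The eigenvalue. -/
noncomputable def ee (u : ℝ → E) (x : ℝ) : ℝ := mo u 1 x / ‖u x‖ ^ 2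

/-- The logarithmic derivative. -/
noncomputable def hh (u : ℝ → E) (x : ℝ) : ℝ := -(π / 2) * tan (π * ee u x) * ‖u x‖ ^ 2

lemma pos_Iic {f : ℝ → ℝ} (hf : Continuous f) (hi : Integrable f) (h0 : ∀ y, 0 ≤ f y) {x : ℝ}
    (hx : 0 < f x) : 0 < ∫ y in Iic x, f y := by
  rw [setIntegral_pos_iff_support_of_nonneg_ae (Eventually.of_forall h0) hi.integrableOn]
  obtain ⟨l, r, hlr, hsub⟩ := mem_nhds_iff_exists_Ioo_subset.1
    (hf.continuousAt.eventually_ne hx.ne')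
  have h1 : Ioo l x ⊆ Function.support f ∩ Iic x := fun y hy =>
    ⟨hsub ⟨hy.1, hy.2.trans hlr.2⟩, hy.2.le⟩
  refine lt_of_lt_of_le ?_ (measure_mono h1)
  rw [Real.volume_Ioo]
  exact ENNReal.ofReal_pos.2 (by linarith [hlr.1])

lemma pos_Ioi {f : ℝ → ℝ} (hf : Continuous f) (hi : Integrable f) (h0 : ∀ y, 0 ≤ f y) {x : ℝ}
    (hx : 0 < f x) : 0 < ∫ y in Ioi x, f y := by
  rw [setIntegral_pos_iff_support_of_nonneg_ae (Eventually.of_forall h0) hi.integrableOn]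
  obtain ⟨l, r, hlr, hsub⟩ := mem_nhds_iff_exists_Ioo_subset.1
    (hf.continuousAt.eventually_ne hx.ne')
  have h1 : Ioo x r ⊆ Function.support f ∩ Ioi x := fun y hy =>
    ⟨hsub ⟨hlr.1.trans hy.1, hy.2⟩, hy.1⟩
  refine lt_of_lt_of_le ?_ (measure_mono h1)
  rw [Real.volume_Ioo]
  exact ENNReal.ofReal_pos.2 (by linarith [hlr.2])

namespace SysW

variable {u u' : ℝ → E} (h : SysW u u')
include h

lemma int3_nonneg : 0 ≤ ∫ x, (‖u x‖ ^ 2) ^ 3 := integral_nonneg fun x => by positivity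

/-- Equality forces the variance term to vanish. -/
lemma varT_zero (heq : ∫ x, ‖u' x‖ ^ 2 ≤ π ^ 2 / 4 * ∫ x, (‖u x‖ ^ 2) ^ 3) (x : ℝ) :
    ‖u x‖ ^ 2 * varT u x = 0 := by
  set I := ∫ x, (‖u x‖ ^ 2) ^ 3 with hI
  have hI0 : 0 ≤ I := h.int3_nonneg
  set f : ℝ → ℝ := fun x => (π / 2) ^ 4 / (16 * π ^ 2) * (2 * ‖u x‖ ^ 2 * varT u x) with hf
  have hfc : Continuous f :=
    continuous_const.mul ((continuous_const.mul (h.uc.norm.pow 2)).mul h.varT_cont)
  have hbound : ∀ θ : ℝ, π / 2 ≤ θ → θ < π → ∀ δ : ℝ, 0 < δ →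
      ∫⁻ x, ENNReal.ofReal (f x) ≤ ENNReal.ofReal ((π ^ 2 / 4 - (θ ^ 2 / 4 - δ)) * I) := by
    intro θ h1 h2 δ hδ
    obtain ⟨P', η, -, -, -, hle⟩ := h.sharp_theta (by linarith [pi_pos]) h2 hδ
    refine le_trans (lintegral_mono fun x => ENNReal.ofReal_le_ofReal ?_) (hle.trans
      (ENNReal.ofReal_le_ofReal ?_))
    · have h3 := h.varT_nonneg x
      have h4 : (π / 2) ^ 4 ≤ θ ^ 4 := pow_le_pow_left₀ (by positivity) h1 4
      have h5 : (π / 2) ^ 4 / (16 * π ^ 2) ≤ θ ^ 4 / (16 * π ^ 2) :=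
        div_le_div_of_nonneg_right h4 (by positivity)
      have h6 : 0 ≤ 2 * ‖u x‖ ^ 2 * varT u x := by positivity
      have h7 := mul_le_mul_of_nonneg_right h5 h6
      have h8 := sq_nonneg ‖u' x - η x‖
      simp only [hf]
      linarith
    · rw [sub_mul (π ^ 2 / 4)]
      linarith
  have hlim : Tendsto (fun n : ℕ => ENNReal.ofReal ((π ^ 2 / 4 -
      ((π - 1 / ((n:ℝ) + 1)) ^ 2 / 4 - 1 / ((n:ℝ) + 1))) * I)) atTop (𝓝 0) := by
    have h1 : Tendsto (fun n : ℕ => (1 / ((n:ℝ) + 1) : ℝ)) atTop (𝓝 0) :=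
      tendsto_one_div_add_atTop_nhds_zero_nat
    have h2 : Tendsto (fun n : ℕ => (π ^ 2 / 4 -
      ((π - 1 / ((n:ℝ) + 1)) ^ 2 / 4 - 1 / ((n:ℝ) + 1))) * I) atTop
        (𝓝 ((π ^ 2 / 4 - ((π - 0) ^ 2 / 4 - 0)) * I)) :=
      (((((h1.const_sub π).pow 2).div_const 4).sub h1).const_sub _).mul_const I
    have h3 := (ENNReal.continuous_ofReal.tendsto _).comp h2
    have e : (π ^ 2 / 4 - ((π - 0) ^ 2 / 4 - 0)) * I = 0 := by ring
    rw [e, ENNReal.ofReal_zero] at h3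
    exact h3
  have hz : ∫⁻ x, ENNReal.ofReal (f x) = 0 := by
    refine le_antisymm (ge_of_tendsto hlim (Eventually.of_forall fun n => ?_)) (zero_le)
    have hn : (0:ℝ) < 1 / ((n:ℝ) + 1) := by positivity
    have hn1 : 1 / ((n:ℝ) + 1) ≤ 1 := by
      rw [div_le_one (by positivity)]
      linarith [(Nat.cast_nonneg n : (0:ℝ) ≤ n)]
    exact hbound _ (by linarith [pi_gt_three]) (by linarith) _ hn
  rw [lintegral_eq_zero_iff (hfc.measurable.ennreal_ofReal)] at hz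
  have hz2 : f =ᵐ[volume] fun _ => 0 := by
    filter_upwards [hz] with y hy
    have hy' : ENNReal.ofReal (f y) = 0 := hy
    rw [ENNReal.ofReal_eq_zero] at hy'
    refine le_antisymm hy' ?_
    have := h.varT_nonneg y
    simp only [hf]
    positivity
  have hz3 := (Continuous.ae_eq_iff_eq volume hfc continuous_const).1 hz2
  have h9 := congrFun hz3 x
  simp only [hf] at h9
  have hπ : (π / 2) ^ 4 / (16 * π ^ 2) ≠ 0 := by positivity
  have h10 := (mul_eq_zero.1 h9).resolve_left hπ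
  linarith

/-- Equality forces `u` to be an eigenvector of the partial Gram operator. -/
lemma eigen (heq : ∫ x, ‖u' x‖ ^ 2 ≤ π ^ 2 / 4 * ∫ x, (‖u x‖ ^ 2) ^ 3) (x : ℝ) :
    Bop u x (u x) = ee u x • u x := by
  by_cases hx : u x = 0
  · rw [hx]; simp
  have hρ : (0:ℝ) < ‖u x‖ ^ 2 := by positivity
  have hv : varT u x = 0 := (mul_eq_zero.1 (h.varT_zero heq x)).resolve_left hρ.ne'
  have h2 : mo u 2 x = ‖Bop u x (u x)‖ ^ 2 := by
    rw [mo, pow_two, ContinuousLinearMap.mul_apply, ← h.Bop_symm, real_inner_self_eq_norm_sq]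
  have h1 : mo u 1 x = ⟪Bop u x (u x), u x⟫ := by
    rw [mo, pow_one, real_inner_comm]
  have h3 : ‖Bop u x (u x) - ee u x • u x‖ ^ 2 = 0 := by
    rw [norm_sub_sq_real, real_inner_smul_right, ← h1, ← h2, norm_smul, Real.norm_eq_abs, mul_pow,
      sq_abs]
    rw [varT] at hv
    rw [ee]
    field_simp
    linarith
  have h4 : Bop u x (u x) - ee u x • u x = 0 := by
    rw [← norm_eq_zero]
    exact pow_eq_zero_iff (two_ne_zero) |>.1 h3
  exact sub_eq_zero.1 h4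

lemma ee_mem (heq : ∫ x, ‖u' x‖ ^ 2 ≤ π ^ 2 / 4 * ∫ x, (‖u x‖ ^ 2) ^ 3) {x : ℝ} (hx : u x ≠ 0) :
    -(1 / 2) < ee u x ∧ ee u x < 1 / 2 := by
  have hρ : (0:ℝ) < ‖u x‖ ^ 2 := by positivity
  have h1 := h.Bop_inner x (u x) (u x)
  rw [h.eigen heq x, real_inner_smul_left, real_inner_self_eq_norm_sq, h.Gam_inner] at h1
  have hf : Continuous fun y => ⟪u y, u x⟫ ^ 2 := (h.uc.inner continuous_const).pow 2
  have hfx : 0 < ⟪u x, u x⟫ ^ 2 := by
    rw [real_inner_self_eq_norm_sq]; positivity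
  have e : ∀ y, ⟪u y, u x⟫ * ⟪u y, u x⟫ = ⟪u y, u x⟫ ^ 2 := fun y => (pow_two _).symm
  simp only [e] at h1
  have h2 := pos_Iic hf (h.int_sq (u x)) (fun y => sq_nonneg _) hfx
  have h3 := pos_Ioi hf (h.int_sq (u x)) (fun y => sq_nonneg _) hfx
  have h4 := h.hbes (u x)
  rw [← intervalIntegral.integral_Iic_add_Ioi (h.int_sq (u x)).integrableOn
    (h.int_sq (u x)).integrableOn (b := x)] at h4
  constructor
  · by_contra hcon
    have := mul_le_mul_of_nonneg_right (not_lt.1 hcon) hρ.le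
    linarith
  · by_contra hcon
    have := mul_le_mul_of_nonneg_right (not_lt.1 hcon) hρ.le
    linarith

/-- Equality forces the first order equation. -/
lemma ode (heq : ∫ x, ‖u' x‖ ^ 2 ≤ π ^ 2 / 4 * ∫ x, (‖u x‖ ^ 2) ^ 3) :
    u' =ᵐ[volume] fun x => hh u x • u x := by
  set I := ∫ x, (‖u x‖ ^ 2) ^ 3 with hI
  have hI0 : 0 ≤ I := h.int3_nonneg
  set d : ℕ → ℝ := fun n => 1 / ((n:ℝ) + 1) with hd
  have hd0 : ∀ n, 0 < d n := fun n => by simp only [hd]; positivity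
  have hd1 : ∀ n, d n ≤ 1 := fun n => by
    simp only [hd]
    rw [div_le_one (by positivity)]
    linarith [(Nat.cast_nonneg n : (0:ℝ) ≤ n)]
  have hdl : Tendsto d atTop (𝓝 0) := tendsto_one_div_add_atTop_nhds_zero_nat
  have hex : ∀ n, ∃ (P' : ℝ → ℝ → ℝ) (η : ℝ → E),
      (∀ s ∈ Icc (-(1 / 2) : ℝ) (1 / 2), ∀ t ∈ Icc (-(1 / 2) : ℝ) (1 / 2),
        |P' s t + tan ((π - d n) / 2 * (s + t))| ≤ d n) ∧
      Continuous η ∧
      (∀ x e, Bop u x (u x) = e • u x → η x = ((π - d n) / 2 * P' e e * ‖u x‖ ^ 2) • u x) ∧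
      ∫⁻ x, ENNReal.ofReal (‖u' x - η x‖ ^ 2 +
        (π - d n) ^ 4 / (16 * π ^ 2) * (2 * ‖u x‖ ^ 2 * varT u x)) ≤
      ENNReal.ofReal ((∫ x, ‖u' x‖ ^ 2) - ((π - d n) ^ 2 / 4 - d n) * ∫ x, (‖u x‖ ^ 2) ^ 3) :=
    fun n => h.sharp_theta (by linarith [pi_gt_three, hd1 n]) (by linarith [hd0 n]) (hd0 n)
  choose P' η hP hηc hη hle using hex
  have hpt : ∀ x, Tendsto (fun n => η n x) atTop (𝓝 (hh u x • u x)) := by
    intro x
    by_cases hx : u x = 0
    · have : ∀ n, η n x = 0 := by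
        intro n
        rw [hη n x (ee u x) (h.eigen heq x), hx, smul_zero]
      simp only [this, hx, smul_zero]
      exact tendsto_const_nhds
    · obtain ⟨he1, he2⟩ := h.ee_mem heq hx
      have hcos : cos (π * ee u x) ≠ 0 := by
        refine (cos_pos_of_mem_Ioo ⟨?_, ?_⟩).ne' <;> nlinarith [pi_pos]
      have ht : Tendsto (fun n => tan ((π - d n) / 2 * (ee u x + ee u x))) atTop
          (𝓝 (tan (π * ee u x))) := by
        have h1 : Tendsto (fun n => (π - d n) / 2 * (ee u x + ee u x)) atTop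
            (𝓝 ((π - 0) / 2 * (ee u x + ee u x))) :=
          ((hdl.const_sub π).div_const 2).mul_const _
        have e : (π - 0) / 2 * (ee u x + ee u x) = π * ee u x := by ring
        rw [e] at h1
        exact (continuousAt_tan.2 hcos).tendsto.comp h1
      have hm : ee u x ∈ Icc (-(1 / 2) : ℝ) (1 / 2) := ⟨he1.le, he2.le⟩
      have hPl : Tendsto (fun n => P' n (ee u x) (ee u x)) atTop (𝓝 (-tan (π * ee u x))) := by
        have h1 : Tendsto (fun n => P' n (ee u x) (ee u x) +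
            tan ((π - d n) / 2 * (ee u x + ee u x))) atTop (𝓝 0) :=
          squeeze_zero_norm (fun n => by
            rw [Real.norm_eq_abs]; exact hP n _ hm _ hm) hdl
        have h2 := h1.sub ht
        rw [zero_sub] at h2
        refine h2.congr fun n => ?_
        ring
      have h3 : Tendsto (fun n => ((π - d n) / 2 * P' n (ee u x) (ee u x) * ‖u x‖ ^ 2) • u x)
          atTop (𝓝 (((π - 0) / 2 * (-tan (π * ee u x)) * ‖u x‖ ^ 2) • u x)) :=
        ((((hdl.const_sub π).div_const 2).mul hPl).mul_const _).smul_const _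
      have e : (π - 0) / 2 * (-tan (π * ee u x)) * ‖u x‖ ^ 2 = hh u x := by
        rw [hh]; ring
      rw [e] at h3
      refine h3.congr fun n => ?_
      rw [hη n x (ee u x) (h.eigen heq x)]
  have hup : ∀ n, ∫⁻ x, ENNReal.ofReal (‖u' x - η n x‖ ^ 2) ≤
      ENNReal.ofReal ((π ^ 2 / 4 - ((π - d n) ^ 2 / 4 - d n)) * I) := by
    intro n
    refine le_trans (lintegral_mono fun x => ENNReal.ofReal_le_ofReal ?_) ((hle n).trans
      (ENNReal.ofReal_le_ofReal ?_))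
    · have := h.varT_nonneg x
      have : 0 ≤ (π - d n) ^ 4 / (16 * π ^ 2) * (2 * ‖u x‖ ^ 2 * varT u x) := by positivity
      linarith
    · rw [sub_mul (π ^ 2 / 4)]
      linarith
  have hlim : Tendsto (fun n => ENNReal.ofReal ((π ^ 2 / 4 -
      ((π - d n) ^ 2 / 4 - d n)) * I)) atTop (𝓝 0) := by
    have h2 : Tendsto (fun n : ℕ => (π ^ 2 / 4 - ((π - d n) ^ 2 / 4 - d n)) * I) atTop
        (𝓝 ((π ^ 2 / 4 - ((π - 0) ^ 2 / 4 - 0)) * I)) :=
      (((((hdl.const_sub π).pow 2).div_const 4).sub hdl).const_sub _).mul_const I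
    have h3 := (ENNReal.continuous_ofReal.tendsto _).comp h2
    have e : (π ^ 2 / 4 - ((π - 0) ^ 2 / 4 - 0)) * I = 0 := by ring
    rw [e, ENNReal.ofReal_zero] at h3
    exact h3
  have hlimz : Tendsto (fun n => ∫⁻ x, ENNReal.ofReal (‖u' x - η n x‖ ^ 2)) atTop (𝓝 0) :=
    tendsto_of_tendsto_of_tendsto_of_le_of_le tendsto_const_nhds hlim (fun n => zero_le) hup
  have hmeas : ∀ n, AEMeasurable (fun x => ENNReal.ofReal (‖u' x - η n x‖ ^ 2)) volume := by
    intro n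
    exact ((h.hgm.1.sub (hηc n).aestronglyMeasurable).norm.pow 2).aemeasurable.ennreal_ofReal
  have hfat : ∫⁻ x, liminf (fun n => ENNReal.ofReal (‖u' x - η n x‖ ^ 2)) atTop ≤ 0 := by
    refine (lintegral_liminf_le' hmeas).trans ?_
    rw [hlimz.liminf_eq]
  have hpt2 : ∀ x, liminf (fun n => ENNReal.ofReal (‖u' x - η n x‖ ^ 2)) atTop =
      ENNReal.ofReal (‖u' x - hh u x • u x‖ ^ 2) := by
    intro x
    refine Tendsto.liminf_eq ?_
    exact (ENNReal.continuous_ofReal.tendsto _).comp (((hpt x).const_sub (u' x)).norm.pow 2)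
  simp only [hpt2] at hfat
  have hmlim : AEStronglyMeasurable (fun x => hh u x • u x) volume :=
    aestronglyMeasurable_of_tendsto_ae atTop (fun n => (hηc n).aestronglyMeasurable)
      (Eventually.of_forall hpt)
  have hz := le_antisymm hfat (zero_le)
  have hmm : AEMeasurable (fun x => ENNReal.ofReal (‖u' x - hh u x • u x‖ ^ 2)) volume :=
    ((h.hgm.1.sub hmlim).norm.pow 2).aemeasurable.ennreal_ofReal
  rw [lintegral_eq_zero_iff' hmm] at hz
  filter_upwards [hz] with x hx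
  have hx' : ENNReal.ofReal (‖u' x - hh u x • u x‖ ^ 2) = 0 := hx
  rw [ENNReal.ofReal_eq_zero] at hx'
  have h1 : ‖u' x - hh u x • u x‖ = 0 :=
    pow_eq_zero_iff (two_ne_zero) |>.1 (le_antisymm hx' (sq_nonneg _))
  exact sub_eq_zero.1 (norm_eq_zero.1 h1)

/-- The system with the derivative replaced by the right side of the equation. -/
lemma replace (heq : ∫ x, ‖u' x‖ ^ 2 ≤ π ^ 2 / 4 * ∫ x, (‖u x‖ ^ 2) ^ 3) :
    SysW u (fun x => hh u x • u x) where
  hug a b := by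
    rw [h.hug a b]
    exact intervalIntegral.integral_congr_ae ((h.ode heq).mono fun x hx _ => hx)
  hum := h.hum
  hgm := (memLp_congr_ae (h.ode heq)).1 h.hgm
  hbes := h.hbes

lemma ee_cont {x : ℝ} (hx : u x ≠ 0) : ContinuousAt (ee u) x := by
  refine ContinuousAt.div (h.mo_cont 1).continuousAt (h.uc.norm.pow 2).continuousAt ?_
  have : (0:ℝ) < ‖u x‖ ^ 2 := by positivity
  exact this.ne'

lemma cos_pos' (heq : ∫ x, ‖u' x‖ ^ 2 ≤ π ^ 2 / 4 * ∫ x, (‖u x‖ ^ 2) ^ 3) {x : ℝ}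
    (hx : u x ≠ 0) : 0 < cos (π * ee u x) := by
  obtain ⟨he1, he2⟩ := h.ee_mem heq hx
  refine cos_pos_of_mem_Ioo ⟨?_, ?_⟩ <;> nlinarith [pi_pos]

lemma u_deriv (heq : ∫ x, ‖u' x‖ ^ 2 ≤ π ^ 2 / 4 * ∫ x, (‖u x‖ ^ 2) ^ 3) {x : ℝ}
    (hx : u x ≠ 0) : HasDerivAt u (hh u x • u x) x := by
  have hs := h.replace heq
  have hform : u = fun y => u 0 + ∫ t in (0:ℝ)..y, hh u t • u t := by
    funext y; rw [← hs.hug 0 y]; abel
  have hc : ContinuousAt (fun x => hh u x • u x) x := by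
    refine ContinuousAt.smul ?_ h.uc.continuousAt
    refine ContinuousAt.mul (continuousAt_const.mul ?_) (h.uc.norm.pow 2).continuousAt
    exact ContinuousAt.comp (g := tan) (f := fun x => π * ee u x)
      (continuousAt_tan.2 (h.cos_pos' heq hx).ne') (continuousAt_const.mul (h.ee_cont hx))
  have h1 := intervalIntegral.integral_hasDerivAt_right (hs.gint 0 x)
    (hs.hgm.1.stronglyMeasurableAtFilter) hc
  rw [hform]
  refine (h1.const_add (u 0)).congr_deriv ?_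
  rw [← hform]

/-- The derivative of the eigenvalue. -/
lemma ee_deriv (heq : ∫ x, ‖u' x‖ ^ 2 ≤ π ^ 2 / 4 * ∫ x, (‖u x‖ ^ 2) ^ 3) {x : ℝ}
    (hx : u x ≠ 0) : HasDerivAt (ee u) (‖u x‖ ^ 2) x := by
  have hs := h.replace heq
  have hρ : (0:ℝ) < ‖u x‖ ^ 2 := by positivity
  have hd := h.u_deriv heq hx
  have h0 := hs.mo_deriv hd 0
  have h1 := hs.mo_deriv hd 1
  have hm0 : mu u (fun x => hh u x • u x) 0 x = hh u x * ‖u x‖ ^ 2 := by
    simp only [mu, pow_zero, ContinuousLinearMap.one_apply, real_inner_smul_left,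
      real_inner_self_eq_norm_sq]
  have hm1 : mu u (fun x => hh u x • u x) 1 x = hh u x * (ee u x * ‖u x‖ ^ 2) := by
    simp only [mu, pow_one, h.eigen heq x, real_inner_smul_left, real_inner_smul_right,
      real_inner_self_eq_norm_sq]
    ring
  have hmo0 : mo u 0 = fun x => ‖u x‖ ^ 2 := funext fun x => h.mo_zero x
  have hmo1 : mo u 1 x = ee u x * ‖u x‖ ^ 2 := by
    rw [ee]; field_simp
  simp only [Finset.range_zero, Finset.sum_empty, add_zero, hm0] at h0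
  simp only [Finset.range_one, Finset.sum_singleton, hm1, h.mo_zero, Nat.sub_self] at h1
  rw [hmo0] at h0
  refine (h1.div h0 hρ.ne').congr_deriv ?_
  rw [hmo1]
  field_simp
  ring

/-- The conserved quantity. -/
lemma AA_deriv (heq : ∫ x, ‖u' x‖ ^ 2 ≤ π ^ 2 / 4 * ∫ x, (‖u x‖ ^ 2) ^ 3) {x : ℝ}
    (hx : u x ≠ 0) : HasDerivAt (fun x => ‖u x‖ ^ 2 / cos (π * ee u x)) 0 x := by
  have hρ : (0:ℝ) < ‖u x‖ ^ 2 := by positivity
  have hc := h.cos_pos' heq hx
  have h0 := (h.u_deriv heq hx).norm_sq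
  rw [real_inner_smul_right, real_inner_self_eq_norm_sq] at h0
  have h1 := ((h.ee_deriv heq hx).const_mul π).cos
  refine (h0.div h1 hc.ne').congr_deriv ?_
  rw [hh, tan_eq_sin_div_cos]
  field_simp
  ring

/-- The direction is conserved. -/
lemma dir_deriv (heq : ∫ x, ‖u' x‖ ^ 2 ≤ π ^ 2 / 4 * ∫ x, (‖u x‖ ^ 2) ^ 3) {x : ℝ}
    (hx : u x ≠ 0) : HasDerivAt (fun x => (‖u x‖)⁻¹ • u x) 0 x := by
  have hρ : (0:ℝ) < ‖u x‖ := by positivity
  have hd := h.u_deriv heq hx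
  have h0 := hd.norm_sq
  rw [real_inner_smul_right, real_inner_self_eq_norm_sq] at h0
  have h2 := h0.sqrt (by positivity)
  have e : (fun x => √(‖u x‖ ^ 2)) = fun x => ‖u x‖ := funext fun x => sqrt_sq (norm_nonneg _)
  rw [e, sqrt_sq hρ.le] at h2
  refine ((h2.inv hρ.ne').smul hd).congr_deriv ?_
  rw [smul_smul, ← add_smul]
  have e2 : ‖u x‖⁻¹ * hh u x + -(2 * (hh u x * ‖u x‖ ^ 2) / (2 * ‖u x‖)) / ‖u x‖ ^ 2 = 0 := by
    field_simp
    ring
  simp only [Pi.inv_apply]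
  rw [e2, zero_smul]

/-- The tangent variable. -/
lemma TT_deriv (heq : ∫ x, ‖u' x‖ ^ 2 ≤ π ^ 2 / 4 * ∫ x, (‖u x‖ ^ 2) ^ 3) {x : ℝ}
    (hx : u x ≠ 0) : HasDerivAt (fun x => tan (π / 2 * ee u x + π / 4))
      (π * (‖u x‖ ^ 2 / cos (π * ee u x)) * tan (π / 2 * ee u x + π / 4)) x := by
  obtain ⟨he1, he2⟩ := h.ee_mem heq hx
  have hc : 0 < cos (π / 2 * ee u x + π / 4) :=
    cos_pos_of_mem_Ioo ⟨by nlinarith [pi_pos], by nlinarith [pi_pos]⟩
  have hs : 0 < sin (π / 2 * ee u x + π / 4) :=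
    sin_pos_of_pos_of_lt_pi (by nlinarith [pi_pos]) (by nlinarith [pi_pos])
  have hcos : cos (π * ee u x) =
      2 * sin (π / 2 * ee u x + π / 4) * cos (π / 2 * ee u x + π / 4) := by
    rw [← sin_two_mul, ← sin_pi_div_two_sub, ← sin_pi_sub]
    congr 1
    ring
  have h1 := ((h.ee_deriv heq hx).const_mul (π / 2)).add_const (π / 4)
  have h2 := (hasDerivAt_tan hc.ne').comp x h1
  refine h2.congr_deriv ?_
  rw [hcos, tan_eq_sin_div_cos]
  generalize (π / 2 * ee u x + π / 4) = τ at hc hs ⊢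
  field_simp

end SysW

end Pool.Agent.R282.KE
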