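import Pool.Agent.R282.KE.Ker
import Pool.Agent.R282.KE.Alg
import Pool.Agent.Helper490.CalibMain

set_option autoImplicit false
set_option linter.unusedSectionVars false
set_option linter.deprecated false

open MeasureTheory Set Filter Topology Real
open scoped RealInnerProductSpace ENNReal

namespace Pool.Agent.R282.KE

open Pool.Helper490.Calib

section AC

variable {X Y : Type*} [PseudoMetricSpace X] [PseudoMetricSpace Y]

lemma ac_of_dist_le {f : ℝ → X} {g : ℝ → Y} {a b C : ℝ}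
    (hg : AbsolutelyContinuousOnInterval g a b)
    (h : ∀ x ∈ uIcc a b, ∀ y ∈ uIcc a b, dist (f x) (f y) ≤ C * dist (g x) (g y)) :
    AbsolutelyContinuousOnInterval f a b := by
  unfold AbsolutelyContinuousOnInterval at hg ⊢
  refine squeeze_zero' (Eventually.of_forall fun _ => Finset.sum_nonneg fun i hi => dist_nonneg)
    ?_ (by simpa using hg.const_mul C)
  rw [eventually_inf_principal]
  refine Eventually.of_forall fun E hE => ?_
  rw [Finset.mul_sum]
  refine Finset.sum_le_sum fun i hi => ?_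
  exact h _ (hE.1 i hi).1 _ (hE.1 i hi).2

lemma ac_prodMk {f : ℝ → X} {g : ℝ → Y} {a b : ℝ}
    (hf : AbsolutelyContinuousOnInterval f a b) (hg : AbsolutelyContinuousOnInterval g a b) :
    AbsolutelyContinuousOnInterval (fun x => (f x, g x)) a b := by
  unfold AbsolutelyContinuousOnInterval at hf hg ⊢
  refine squeeze_zero' (Eventually.of_forall fun _ => Finset.sum_nonneg fun i hi => dist_nonneg)
    (Eventually.of_forall fun E => ?_) (by simpa using hf.add hg)
  rw [← Finset.sum_add_distrib]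
  refine Finset.sum_le_sum fun i hi => ?_
  rw [Prod.dist_eq]
  exact max_le (le_add_of_nonneg_right dist_nonneg) (le_add_of_nonneg_left dist_nonneg)

lemma ac_sum {ι : Type*} (S : Finset ι) {f : ι → ℝ → ℝ} {a b : ℝ}
    (h : ∀ q ∈ S, AbsolutelyContinuousOnInterval (f q) a b) :
    AbsolutelyContinuousOnInterval (fun x => ∑ q ∈ S, f q x) a b := by
  classical
  induction S using Finset.induction_on with
  | empty =>
    simp only [Finset.sum_empty]
    exact (LipschitzWith.const (0:ℝ)).lipschitzOnWith.absolutelyContinuousOnInterval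
  | insert q S hq ih =>
    simp only [Finset.sum_insert hq]
    exact (h q (Finset.mem_insert_self q S)).fun_add
      (ih fun r hr => h r (Finset.mem_insert_of_mem hr))

end AC

variable {E : Type*} [NormedAddCommGroup E] [InnerProductSpace ℝ E] [FiniteDimensional ℝ E]

/-- A vector valued function in the Sobolev space whose Gram operator is at most the identity. -/
structure SysW (u g : ℝ → E) : Prop where
  hug : ∀ a b, u b - u a = ∫ x in a..b, g x
  hum : MemLp u 2
  hgm : MemLp g 2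
  hbes : ∀ v : E, ∫ x, ⟪u x, v⟫ ^ 2 ≤ ‖v‖ ^ 2

namespace SysW

variable {u u' : ℝ → E} (h : SysW u u')
include h

lemma gloc : LocallyIntegrable u' volume := h.hgm.locallyIntegrable (by norm_num)

lemma gint (a b : ℝ) : IntervalIntegrable u' volume a b :=
  intervalIntegrable_iff.2 ((h.gloc.integrableOn_isCompact isCompact_uIcc).mono_set
      uIoc_subset_uIcc)

lemma hui : Integrable (fun x => ‖u x‖ ^ 2) := h.hum.integrable_norm_pow (by norm_num)

lemma hu'i : Integrable (fun x => ‖u' x‖ ^ 2) := h.hgm.integrable_norm_pow (by norm_num)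

lemma uc : Continuous u := by
  have : u = fun x => u 0 + ∫ t in (0:ℝ)..x, u' t := by
    funext x; rw [← h.hug 0 x]; abel
  rw [this]
  exact continuous_const.add (intervalIntegral.continuous_primitive h.gint 0)

lemma hder : ∀ᵐ x, HasDerivAt u (u' x) x := by
  filter_upwards [_root_.LocallyIntegrable.ae_hasDerivAt_integral h.gloc] with x hx
  have : u = fun x => u 0 + ∫ t in (0:ℝ)..x, u' t := by
    funext x; rw [← h.hug 0 x]; abel
  rw [this]
  exact (hx 0).const_add _

lemma u_ac (a b : ℝ) : AbsolutelyContinuousOnInterval u a b := by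
  have hW : AbsolutelyContinuousOnInterval (fun x => ∫ t in a..x, ‖u' t‖) a b :=
    (h.gint a b).norm.absolutelyContinuousOnInterval_intervalIntegral (by simp)
  refine ac_of_dist_le (C := 1) hW fun x hx y hy => ?_
  rw [one_mul, dist_eq_norm, ← norm_neg, neg_sub, h.hug x y, dist_comm, Real.dist_eq,
    intervalIntegral.integral_interval_sub_left (h.gint _ _).norm (h.gint _ _).norm]
  exact intervalIntegral.norm_integral_le_abs_integral_norm

lemma Rc : Continuous (R u) := by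
  have h1 : Continuous fun x => innerSL ℝ (u x) := (innerSL ℝ).continuous.comp h.uc
  have h2 := (ContinuousLinearMap.smulRightL ℝ E E).continuous.comp h1
  exact h2.clm_apply h.uc

lemma Ri : Integrable (R u) := by
  refine h.hui.mono h.Rc.aestronglyMeasurable (Eventually.of_forall fun x => ?_)
  rw [R_norm, Real.norm_eq_abs, abs_of_nonneg (sq_nonneg _)]

lemma Gam_deriv (x : ℝ) : HasDerivAt (Gam u) (R u x) x := by
  have hform : Gam u = fun x => Gam u 0 + ∫ t in (0:ℝ)..x, R u t := by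
    funext x
    have := intervalIntegral.integral_Iic_sub_Iic (f := R u) (a := 0) (b := x) (μ := volume)
      h.Ri.integrableOn h.Ri.integrableOn
    simp only [Gam]
    rw [← this]
    abel
  rw [hform]
  exact (intervalIntegral.integral_hasDerivAt_right h.Ri.intervalIntegrable
    (h.Ri.aestronglyMeasurable.stronglyMeasurableAtFilter) h.Rc.continuousAt).const_add _

lemma Bop_deriv (x : ℝ) : HasDerivAt (Bop u) (R u x) x := (h.Gam_deriv x).sub_const _

lemma Bop_cont : Continuous (Bop u) :=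
  continuous_iff_continuousAt.2 fun x => (h.Bop_deriv x).continuousAt

lemma Bop_ac (a b : ℝ) : AbsolutelyContinuousOnInterval (Bop u) a b := by
  have hc : ContDiff ℝ 1 (Bop u) := by
    rw [contDiff_one_iff_deriv]
    refine ⟨fun x => (h.Bop_deriv x).differentiableAt, ?_⟩
    have : deriv (Bop u) = R u := funext fun x => (h.Bop_deriv x).deriv
    rw [this]
    exact h.Rc
  exact hc.contDiffOn.absolutelyContinuousOnInterval

lemma mo_ac (k : ℕ) (a b : ℝ) : AbsolutelyContinuousOnInterval (mo u k) a b := by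
  have h1 := ac_prodMk (h.u_ac a b) (h.Bop_ac a b)
  set p : ℝ → E × (E →L[ℝ] E) := fun x => (u x, Bop u x) with hp
  set Ψ : E × (E →L[ℝ] E) → ℝ := fun z => ⟪z.1, (z.2 ^ k) z.1⟫ with hΨ
  have hΨc : ContDiff ℝ 1 Ψ :=
    contDiff_fst.inner ℝ ((contDiff_snd.pow k).clm_apply contDiff_fst)
  have hpc : Continuous p := h.uc.prodMk h.Bop_cont
  obtain ⟨M, hM⟩ := (isCompact_uIcc (a := a) (b := b)).exists_bound_of_continuousOn
    hpc.continuousOn
  obtain ⟨K, hK⟩ := (hΨc.contDiffOn (s := Metric.closedBall 0 M)).exists_lipschitzOnWith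
    (by decide) (convex_closedBall _ _) (isCompact_closedBall _ _)
  refine ac_of_dist_le (C := K) h1 fun x hx y hy => ?_
  have := hK.dist_le_mul (p x) (by simpa using hM x hx) (p y) (by simpa using hM y hy)
  exact this

lemma Gam_inner (x : ℝ) (v w : E) :
    ⟪Gam u x v, w⟫ = ∫ y in Iic x, ⟪u y, v⟫ * ⟪u y, w⟫ := by
  have h1 : Gam u x v = ∫ y in Iic x, R u y v :=
    ContinuousLinearMap.integral_apply h.Ri.integrableOn v
  have h2 : IntegrableOn (fun y => R u y v) (Iic x) := by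
    have := h.Ri.integrableOn (s := Iic x)
    exact this.apply_continuousLinearMap v
  rw [h1, real_inner_comm, ← integral_inner h2 w]
  refine integral_congr_ae (Eventually.of_forall fun y => ?_)
  simp only [Pool.Helper490.Calib.R_apply, real_inner_smul_right]
  rw [real_inner_comm w (u y)]

lemma int_sq (v : E) : Integrable (fun y => ⟪u y, v⟫ ^ 2) := by
  have hc : Continuous fun y => ⟪u y, v⟫ ^ 2 := (h.uc.inner continuous_const).pow 2
  refine (h.hui.mul_const (‖v‖ ^ 2)).mono' hc.aestronglyMeasurable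
    (Eventually.of_forall fun y => ?_)
  rw [Real.norm_eq_abs, abs_of_nonneg (sq_nonneg _), ← mul_pow, ← sq_abs]
  exact pow_le_pow_left₀ (abs_nonneg _) (abs_real_inner_le_norm _ _) 2

lemma Gam_nonneg (x : ℝ) (v : E) : 0 ≤ ⟪Gam u x v, v⟫ := by
  rw [h.Gam_inner]
  exact setIntegral_nonneg measurableSet_Iic fun y _ => mul_self_nonneg _

lemma Gam_le (x : ℝ) (v : E) : ⟪Gam u x v, v⟫ ≤ ‖v‖ ^ 2 := by
  rw [h.Gam_inner]
  refine le_trans ?_ (h.hbes v)
  have : ∀ y, ⟪u y, v⟫ * ⟪u y, v⟫ = ⟪u y, v⟫ ^ 2 := fun y => (pow_two _).symm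
  simp only [this]
  exact setIntegral_le_integral (h.int_sq v) (Eventually.of_forall fun y => sq_nonneg _)

lemma Bop_inner (x : ℝ) (v w : E) : ⟪Bop u x v, w⟫ = ⟪Gam u x v, w⟫ - 1 / 2 * ⟪v, w⟫ := by
  simp only [Bop, ContinuousLinearMap.sub_apply, ContinuousLinearMap.smul_apply,
    ContinuousLinearMap.one_apply, inner_sub_left, real_inner_smul_left]

lemma Bop_symm (x : ℝ) (v w : E) : ⟪Bop u x v, w⟫ = ⟪v, Bop u x w⟫ := by
  rw [real_inner_comm (Bop u x w) v, h.Bop_inner, h.Bop_inner, h.Gam_inner, h.Gam_inner,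
    real_inner_comm w v]
  congr 2
  funext y
  ring

lemma Bop_pow_symm (x : ℝ) (a : ℕ) (v w : E) :
    ⟪(Bop u x ^ a) v, w⟫ = ⟪v, (Bop u x ^ a) w⟫ := by
  induction a generalizing v w with
  | zero => simp
  | succ a ih =>
    rw [pow_succ, ContinuousLinearMap.mul_apply, ih, h.Bop_symm, ← ContinuousLinearMap.mul_apply,
      ← pow_succ', pow_succ]

lemma Bop_pow_deriv (x : ℝ) (a : ℕ) : HasDerivAt (fun x => Bop u x ^ a)
    (∑ l ∈ Finset.range a, Bop u x ^ l * R u x * Bop u x ^ (a - 1 - l)) x := by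
  induction a with
  | zero => simpa using hasDerivAt_const x (1 : E →L[ℝ] E)
  | succ a ih =>
    have h1 := ih.mul (h.Bop_deriv x)
    have h2 : (fun x => Bop u x ^ (a + 1)) = fun x => Bop u x ^ a * Bop u x := by
      funext x; rw [pow_succ]
    rw [h2]
    refine h1.congr_deriv ?_
    rw [Finset.sum_range_succ, Finset.sum_mul, Nat.add_sub_cancel, Nat.sub_self, pow_zero, mul_one]
    congr 1
    refine Finset.sum_congr rfl fun l hl => ?_
    have hl' : l < a := Finset.mem_range.1 hl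
    rw [mul_assoc, ← pow_succ]
    congr 2
    omega

lemma mo_deriv {x : ℝ} (hx : HasDerivAt u (u' x) x) (a : ℕ) : HasDerivAt (mo u a)
    (2 * mu u u' a x + ∑ l ∈ Finset.range a, mo u l x * mo u (a - 1 - l) x) x := by
  have h1 := (h.Bop_pow_deriv x a).clm_apply hx
  have h2 := hx.inner ℝ h1
  refine h2.congr_deriv ?_
  rw [inner_add_right, ContinuousLinearMap.sum_apply, inner_sum, ← h.Bop_pow_symm x a,
    real_inner_comm (u' x)]
  have h3 : ∀ l ∈ Finset.range a, ⟪u x, (Bop u x ^ l * R u x * Bop u x ^ (a - 1 - l)) (u x)⟫ =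
      mo u l x * mo u (a - 1 - l) x := by
    intro l _
    rw [ContinuousLinearMap.mul_apply, ContinuousLinearMap.mul_apply, Pool.Helper490.Calib.R_apply, map_smul,
      real_inner_smul_right]
    simp only [mo]
    ring
  rw [Finset.sum_congr rfl h3]
  simp only [mu]
  ring

lemma mo_cont (a : ℕ) : Continuous (mo u a) :=
  h.uc.inner ((h.Bop_cont.pow a).clm_apply h.uc)

lemma mu_meas (a : ℕ) : AEStronglyMeasurable (mu u u' a) volume := by
  have h1 : Continuous fun x => (Bop u x ^ a) (u x) := (h.Bop_cont.pow a).clm_apply h.uc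
  exact h.hgm.1.inner h1.aestronglyMeasurable

/-- Coordinates in an eigenbasis. -/
lemma coords (x : ℝ) : ∃ (n : ℕ) (e c d : Fin n → ℝ),
    (∀ i, e i ∈ Icc (-(1 / 2) : ℝ) (1 / 2)) ∧
    (∀ a, mo u a x = ∑ i, e i ^ a * c i ^ 2) ∧
    (∀ a, mu u u' a x = ∑ i, e i ^ a * (c i * d i)) ∧
    ∑ i, d i ^ 2 = ‖u' x‖ ^ 2 ∧ ∑ i, c i ^ 2 = ‖u x‖ ^ 2 ∧
    (∀ {ι : Type} (S : Finset ι) (y : ι → ℝ) (α : ι → ℕ),
      ‖u' x - ∑ q ∈ S, y q • (Bop u x ^ α q) (u x)‖ ^ 2 =
        ∑ i, (d i - c i * ∑ q ∈ S, y q * e i ^ α q) ^ 2) := by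
  have hT : ((Bop u x : E →L[ℝ] E) : E →ₗ[ℝ] E).IsSymmetric := fun v w => h.Bop_symm x v w
  set n := Module.finrank ℝ E with hn
  set b := hT.eigenvectorBasis hn.symm with hb
  set e := hT.eigenvalues hn.symm with he
  have hbe : ∀ i, Bop u x (b i) = e i • b i := fun i => hT.apply_eigenvectorBasis hn.symm i
  have hpow : ∀ i a, (Bop u x ^ a) (b i) = e i ^ a • b i := by
    intro i a
    induction a with
    | zero => simp
    | succ a ih =>
      rw [pow_succ, ContinuousLinearMap.mul_apply, hbe, map_smul, ih, smul_smul, pow_succ, mul_comm]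
  have hcoef : ∀ i a, ⟪b i, (Bop u x ^ a) (u x)⟫ = e i ^ a * ⟪b i, u x⟫ := by
    intro i a
    rw [← h.Bop_pow_symm, hpow, real_inner_smul_left]
  have hexp : ∀ v w : E, ⟪v, w⟫ = ∑ i, ⟪b i, v⟫ * ⟪b i, w⟫ := by
    intro v w
    rw [← b.sum_inner_mul_inner v w]
    refine Finset.sum_congr rfl fun i _ => ?_
    rw [real_inner_comm v (b i)]
  refine ⟨n, e, fun i => ⟪b i, u x⟫, fun i => ⟪b i, u' x⟫, ?_, ?_, ?_, ?_, ?_, ?_⟩
  · intro i
    have hb1 : ‖b i‖ = 1 := b.orthonormal.1 i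
    have h1 := h.Gam_nonneg x (b i)
    have h2 := h.Gam_le x (b i)
    have h3 := h.Bop_inner x (b i) (b i)
    rw [hbe, real_inner_smul_left, real_inner_self_eq_norm_sq, hb1] at h3
    rw [hb1] at h2
    constructor <;> nlinarith
  · intro a
    rw [mo, hexp]
    refine Finset.sum_congr rfl fun i _ => ?_
    rw [hcoef]
    ring
  · intro a
    rw [mu, hexp]
    refine Finset.sum_congr rfl fun i _ => ?_
    rw [hcoef]
    ring
  · rw [← real_inner_self_eq_norm_sq, hexp]
    exact Finset.sum_congr rfl fun i _ => pow_two _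
  · rw [← real_inner_self_eq_norm_sq, hexp]
    exact Finset.sum_congr rfl fun i _ => pow_two _
  · intro ι S y α
    rw [← real_inner_self_eq_norm_sq, hexp]
    refine Finset.sum_congr rfl fun i _ => ?_
    rw [← pow_two, inner_sub_right, inner_sum]
    congr 2
    rw [Finset.mul_sum]
    refine Finset.sum_congr rfl fun q _ => ?_
    rw [real_inner_smul_right, hcoef]
    ring

lemma mo_bound (x : ℝ) (a : ℕ) : |mo u a x| ≤ ‖u x‖ ^ 2 := by
  obtain ⟨n, e, c, d, he, hmo, -, -, hc, -⟩ := h.coords x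
  rw [hmo, ← hc]
  refine (Finset.abs_sum_le_sum_abs _ _).trans (Finset.sum_le_sum fun i _ => ?_)
  have h1 : |e i| ≤ 1 := abs_le.2 ⟨by linarith [(he i).1], by linarith [(he i).2]⟩
  have h2 : |e i| ^ a ≤ 1 := pow_le_one₀ (abs_nonneg _) h1
  rw [abs_mul, abs_pow, abs_of_nonneg (sq_nonneg (c i))]
  calc |e i| ^ a * c i ^ 2 ≤ 1 * c i ^ 2 := mul_le_mul_of_nonneg_right h2 (sq_nonneg _)
    _ = c i ^ 2 := one_mul _

lemma mu_bound (x : ℝ) (a : ℕ) : |2 * mu u u' a x| ≤ ‖u x‖ ^ 2 + ‖u' x‖ ^ 2 := by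
  obtain ⟨n, e, c, d, he, -, hmu, hd, hc, -⟩ := h.coords x
  rw [hmu, ← hc, ← hd, Finset.mul_sum, ← Finset.sum_add_distrib]
  refine (Finset.abs_sum_le_sum_abs _ _).trans (Finset.sum_le_sum fun i _ => ?_)
  have h1 : |e i| ≤ 1 := abs_le.2 ⟨by linarith [(he i).1], by linarith [(he i).2]⟩
  have h2 : |e i| ^ a ≤ 1 := pow_le_one₀ (abs_nonneg _) h1
  have h3 : |2 * (e i ^ a * (c i * d i))| = |e i| ^ a * (2 * (|c i| * |d i|)) := by
    rw [abs_mul, abs_mul, abs_pow, abs_mul, abs_two]; ring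
  rw [h3]
  calc |e i| ^ a * (2 * (|c i| * |d i|)) ≤ 1 * (2 * (|c i| * |d i|)) :=
        mul_le_mul_of_nonneg_right h2 (by positivity)
    _ ≤ c i ^ 2 + d i ^ 2 := by
      nlinarith [sq_nonneg (|c i| - |d i|), sq_abs (c i), sq_abs (d i)]

lemma mo_zero (x : ℝ) : mo u 0 x = ‖u x‖ ^ 2 := by
  simp [mo]

lemma mo_ftc (a b : ℝ) : ∫ x in a..b, 2 * mu u u' 0 x = ‖u b‖ ^ 2 - ‖u a‖ ^ 2 := by
  have h1 := (h.mo_ac 0 a b).integral_deriv_eq_sub
  rw [h.mo_zero, h.mo_zero] at h1
  rw [← h1]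
  refine intervalIntegral.integral_congr_ae ?_
  filter_upwards [h.hder] with x hx _
  rw [(h.mo_deriv hx 0).deriv]
  simp

lemma mu_int : Integrable (fun x => 2 * mu u u' 0 x) := by
  refine (h.hui.add h.hu'i).mono' ((h.mu_meas 0).const_mul 2)
    (Eventually.of_forall fun x => ?_)
  rw [Real.norm_eq_abs]
  exact h.mu_bound x 0

lemma rho_lim_top : Tendsto (fun x => ‖u x‖ ^ 2) atTop (𝓝 0) := by
  have h1 : Tendsto (fun x => ∫ t in (0:ℝ)..x, 2 * mu u u' 0 t) atTop
      (𝓝 (∫ t in Ioi (0:ℝ), 2 * mu u u' 0 t)) :=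
    intervalIntegral_tendsto_integral_Ioi 0 h.mu_int.integrableOn tendsto_id
  have h2 : Tendsto (fun x => ‖u x‖ ^ 2) atTop
      (𝓝 (‖u 0‖ ^ 2 + ∫ t in Ioi (0:ℝ), 2 * mu u u' 0 t)) := by
    refine (h1.const_add (‖u 0‖ ^ 2)).congr fun x => ?_
    rw [h.mo_ftc]; ring
  have h3 := (h.hui.integrableAtFilter atTop).eq_zero_of_tendsto
    (fun s hs => by
      obtain ⟨a, ha⟩ := mem_atTop_sets.1 hs
      exact top_le_iff.1 (le_trans (by simp) (measure_mono (fun x (hx : x ∈ Ici a) => ha x hx)))) h2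
  rwa [h3] at h2

lemma rho_lim_bot : Tendsto (fun x => ‖u x‖ ^ 2) atBot (𝓝 0) := by
  have h1 : Tendsto (fun x => ∫ t in x..(0:ℝ), 2 * mu u u' 0 t) atBot
      (𝓝 (∫ t in Iic (0:ℝ), 2 * mu u u' 0 t)) :=
    intervalIntegral_tendsto_integral_Iic 0 h.mu_int.integrableOn tendsto_id
  have h2 : Tendsto (fun x => ‖u x‖ ^ 2) atBot
      (𝓝 (‖u 0‖ ^ 2 - ∫ t in Iic (0:ℝ), 2 * mu u u' 0 t)) := by
    refine (h1.const_sub (‖u 0‖ ^ 2)).congr fun x => ?_
    rw [h.mo_ftc]; ring
  have h3 := (h.hui.integrableAtFilter atBot).eq_zero_of_tendsto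
    (fun s hs => by
      obtain ⟨a, ha⟩ := mem_atBot_sets.1 hs
      exact top_le_iff.1 (le_trans (by simp) (measure_mono (fun x (hx : x ∈ Iic a) => ha x hx)))) h2
  rwa [h3] at h2

lemma rho_bdd : ∃ M, 0 ≤ M ∧ ∀ x, ‖u x‖ ^ 2 ≤ M := by
  refine ⟨‖u 0‖ ^ 2 + ∫ x, |2 * mu u u' 0 x|, add_nonneg (sq_nonneg _)
    (integral_nonneg fun x => abs_nonneg _), fun x => ?_⟩
  have h1 := h.mo_ftc 0 x
  have h2 : ∫ t in (0:ℝ)..x, 2 * mu u u' 0 t ≤ ∫ x, |2 * mu u u' 0 x| := by
    refine (le_abs_self _).trans ?_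
    rw [← Real.norm_eq_abs]
    refine intervalIntegral.norm_integral_le_integral_norm_uIoc.trans ?_
    simp only [Real.norm_eq_abs]
    exact setIntegral_le_integral h.mu_int.abs (Eventually.of_forall fun y => abs_nonneg _)
  linarith

lemma rho3_int : Integrable (fun x => (‖u x‖ ^ 2) ^ 3) := by
  obtain ⟨M, hM0, hM⟩ := h.rho_bdd
  have hc : Continuous fun x => (‖u x‖ ^ 2) ^ 3 := (h.uc.norm.pow 2).pow 3
  refine (h.hui.const_mul (M ^ 2)).mono' hc.aestronglyMeasurable (Eventually.of_forall fun x => ?_)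
  have h0 : 0 ≤ ‖u x‖ ^ 2 := sq_nonneg _
  rw [Real.norm_eq_abs, abs_of_nonneg (by positivity)]
  calc (‖u x‖ ^ 2) ^ 3 = (‖u x‖ ^ 2) ^ 2 * ‖u x‖ ^ 2 := by ring
    _ ≤ M ^ 2 * ‖u x‖ ^ 2 :=
      mul_le_mul_of_nonneg_right (pow_le_pow_left₀ h0 (hM x) 2) h0

end SysW

end Pool.Agent.R282.KE
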